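import Mathlib

-- merged part: Pool.Agent.Work.MP_ace6cd_an.Op
section
set_option autoImplicit false

open scoped InnerProductSpace Matrix ComplexConjugate
open Matrix Filter Topology

noncomputable section

namespace Pool.Agent.ACE6

section Block

variable {ι : Type} [Fintype ι] [DecidableEq ι]

/-- The multiplier (1+T) D_h (1-T) of a finite block. -/
def Mop (T : Matrix ι ι ℂ) (h : ι → ℂ) : EuclideanSpace ℂ ι →L[ℂ] EuclideanSpace ℂ ι :=
  toEuclideanCLM (n := ι) (𝕜 := ℂ) ((1 + T) * diagonal h * (1 - T))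

/-- The weight `⟪y, P_n x⟫` of a finite block. -/
def ww (T : Matrix ι ι ℂ) (x y : EuclideanSpace ℂ ι) (n : ι) : ℂ :=
  ((1 - T) *ᵥ x.ofLp) n * (star y.ofLp ᵥ* (1 + T)) n

lemma inner_Mop (T : Matrix ι ι ℂ) (h : ι → ℂ) (x y : EuclideanSpace ℂ ι) :
    ⟪y, Mop T h x⟫_ℂ = ∑ n, h n * ww T x y n := by
  rw [EuclideanSpace.inner_eq_star_dotProduct, dotProduct_comm]
  simp only [Mop, ofLp_toEuclideanCLM]
  rw [← mulVec_mulVec, ← mulVec_mulVec, dotProduct_mulVec]
  simp only [dotProduct, mulVec_diagonal, ww]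
  refine Finset.sum_congr rfl fun n _ => by ring

lemma sq_zero {T : Matrix ι ι ℂ} (hT : ∀ h, T * diagonal h * T = 0) : T * T = 0 := by
  have := hT 1
  have h1 : (diagonal (1 : ι → ℂ)) = 1 := diagonal_one
  rwa [h1, mul_one] at this

lemma inv_left {T : Matrix ι ι ℂ} (hT : T * T = 0) : (1 - T) * (1 + T) = 1 := by
  have : (1 - T) * (1 + T) = 1 - T * T := by noncomm_ring
  rw [this, hT, sub_zero]

lemma inv_right {T : Matrix ι ι ℂ} (hT : T * T = 0) : (1 + T) * (1 - T) = 1 := by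
  have : (1 + T) * (1 - T) = 1 - T * T := by noncomm_ring
  rw [this, hT, sub_zero]

lemma Mop_mul {T : Matrix ι ι ℂ} (hT : T * T = 0) (h g : ι → ℂ) :
    Mop T (fun n => h n * g n) = Mop T h * Mop T g := by
  unfold Mop
  rw [← map_mul]
  congr 1
  have : (1 + T) * diagonal h * (1 - T) * ((1 + T) * diagonal g * (1 - T))
      = (1 + T) * diagonal h * ((1 - T) * (1 + T)) * diagonal g * (1 - T) := by
    simp only [Matrix.mul_assoc]
  rw [this, inv_left hT, mul_one, Matrix.mul_assoc (1 + T) (diagonal h), diagonal_mul_diagonal]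

lemma Mop_add (T : Matrix ι ι ℂ) (h g : ι → ℂ) :
    Mop T (fun n => h n + g n) = Mop T h + Mop T g := by
  unfold Mop
  rw [← map_add, ← diagonal_add, mul_add, add_mul]

lemma Mop_sub (T : Matrix ι ι ℂ) (h g : ι → ℂ) :
    Mop T (fun n => h n - g n) = Mop T h - Mop T g := by
  unfold Mop
  rw [← map_sub, ← diagonal_sub]
  congr 1
  noncomm_ring

lemma Mop_const {T : Matrix ι ι ℂ} (hT : T * T = 0) (c : ℂ) :
    Mop T (fun _ => c) = c • (1 : EuclideanSpace ℂ ι →L[ℂ] EuclideanSpace ℂ ι) := by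
  unfold Mop
  have : (diagonal fun _ : ι => c) = c • (1 : Matrix ι ι ℂ) := by
    ext a b; by_cases hab : a = b <;> simp [hab]
  rw [this, mul_smul_comm, smul_mul_assoc, mul_one, inv_right hT, map_smul, map_one]

lemma hs_le {κ : Type} [Fintype κ] (K : Matrix ι κ ℂ) (x : κ → ℂ) :
    ∑ a, ‖(K *ᵥ x) a‖ ^ 2 ≤ (∑ a, ∑ b, ‖K a b‖ ^ 2) * ∑ b, ‖x b‖ ^ 2 := by
  rw [Finset.sum_mul]
  refine Finset.sum_le_sum fun a _ => ?_
  have h1 : ‖(K *ᵥ x) a‖ ≤ ∑ b, ‖K a b‖ * ‖x b‖ := by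
    simp only [mulVec, dotProduct]
    exact (norm_sum_le _ _).trans (le_of_eq (Finset.sum_congr rfl fun b _ => norm_mul _ _))
  exact (pow_le_pow_left₀ (norm_nonneg _) h1 2).trans (Finset.sum_mul_sq_le_sq_mul_sq _ _ _)

lemma norm_Mop_le {T : Matrix ι ι ℂ} (hT : ∀ h, T * diagonal h * T = 0) (h : ι → ℂ) (s r : ℝ)
    (hs0 : 0 ≤ s) (hr0 : 0 ≤ r) (hs : ∀ n, ‖h n‖ ≤ s)
    (hr : ∑ a, ∑ b, ‖T a b‖ ^ 2 * ‖h b - h a‖ ^ 2 ≤ r ^ 2) : ‖Mop T h‖ ≤ s + r := by
  have hK : (1 + T) * diagonal h * (1 - T) = diagonal h + (T * diagonal h - diagonal h * T) := by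
    have : (1 + T) * diagonal h * (1 - T)
        = diagonal h + (T * diagonal h - diagonal h * T) - T * diagonal h * T := by noncomm_ring
    rw [this, hT, sub_zero]
  unfold Mop
  rw [hK, map_add]
  refine (norm_add_le _ _).trans (add_le_add ?_ ?_)
  · refine ContinuousLinearMap.opNorm_le_bound _ hs0 fun x => ?_
    refine (abs_le_of_sq_le_sq' ?_ (by positivity)).2
    rw [mul_pow, EuclideanSpace.norm_sq_eq, EuclideanSpace.norm_sq_eq, Finset.mul_sum]
    refine Finset.sum_le_sum fun a _ => ?_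
    rw [ofLp_toEuclideanCLM, mulVec_diagonal, norm_mul, mul_pow]
    gcongr
    exact hs a
  · refine ContinuousLinearMap.opNorm_le_bound _ hr0 fun x => ?_
    refine (abs_le_of_sq_le_sq' ?_ (by positivity)).2
    rw [mul_pow, EuclideanSpace.norm_sq_eq, EuclideanSpace.norm_sq_eq, ofLp_toEuclideanCLM]
    refine (hs_le _ _).trans (mul_le_mul_of_nonneg_right (le_of_eq_of_le ?_ hr) (by positivity))
    refine Finset.sum_congr rfl fun a _ => Finset.sum_congr rfl fun b _ => ?_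
    rw [Matrix.sub_apply, mul_diagonal, diagonal_mul, ← mul_pow, ← norm_mul]
    congr 2
    ring

end Block

section Sum

variable {Bk : Type} {P : Bk → Type} [∀ β, Fintype (P β)] [∀ β, DecidableEq (P β)]

/-- The Hilbert sum of the blocks. -/
abbrev HH (P : Bk → Type) [∀ β, Fintype (P β)] : Type :=
  lp (fun β => EuclideanSpace ℂ (P β)) 2

/-- `S` is the block diagonal multiplier with symbol `h`. -/
def Rep (T : ∀ β, Matrix (P β) (P β) ℂ) (S : HH P →L[ℂ] HH P) (h : (Σ β, P β) → ℂ) : Prop :=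
  ∀ x β, S x β = Mop (T β) (fun n => h ⟨β, n⟩) (x β)

variable {T : ∀ β, Matrix (P β) (P β) ℂ}

lemma Rep.norm_le {S : HH P →L[ℂ] HH P} {h : (Σ β, P β) → ℂ} (hS : Rep T S h) {C : ℝ}
    (hC0 : 0 ≤ C) (hC : ∀ β, ‖Mop (T β) (fun n => h ⟨β, n⟩)‖ ≤ C) : ‖S‖ ≤ C := by
  refine ContinuousLinearMap.opNorm_le_bound _ hC0 fun x => ?_
  have h1 : ‖S x‖ ≤ ‖(C : ℂ) • x‖ := by
    refine lp.norm_mono (by norm_num) fun β => ?_
    rw [hS, lp.coeFn_smul, Pi.smul_apply, norm_smul, Complex.norm_real, Real.norm_of_nonneg hC0]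
    exact (ContinuousLinearMap.le_opNorm _ _).trans
      (mul_le_mul_of_nonneg_right (hC β) (norm_nonneg _))
  rwa [norm_smul, Complex.norm_real, Real.norm_of_nonneg hC0] at h1

lemma exists_rep (h : (Σ β, P β) → ℂ) {C : ℝ}
    (hC0 : 0 ≤ C) (hC : ∀ β, ‖Mop (T β) (fun n => h ⟨β, n⟩)‖ ≤ C) : ∃ S, Rep T S h := by
  have hb : ∀ (x : HH P) β, ‖Mop (T β) (fun n => h ⟨β, n⟩) (x β)‖ ≤ ‖((C : ℂ) • x) β‖ := by
    intro x β
    rw [lp.coeFn_smul, Pi.smul_apply, norm_smul, Complex.norm_real, Real.norm_of_nonneg hC0]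
    exact (ContinuousLinearMap.le_opNorm _ _).trans
      (mul_le_mul_of_nonneg_right (hC β) (norm_nonneg _))
  let L : HH P →ₗ[ℂ] HH P :=
    { toFun := fun x => ⟨fun β => Mop (T β) (fun n => h ⟨β, n⟩) (x β),
        (lp.memℓp ((C : ℂ) • x)).mono' (hb x)⟩
      map_add' := fun x y => by
        refine lp.ext (funext fun β => ?_)
        change Mop (T β) (fun n => h ⟨β, n⟩) ((x + y) β)
          = Mop (T β) (fun n => h ⟨β, n⟩) (x β) + Mop (T β) (fun n => h ⟨β, n⟩) (y β)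
        rw [lp.coeFn_add, Pi.add_apply, map_add]
      map_smul' := fun c x => by
        refine lp.ext (funext fun β => ?_)
        change Mop (T β) (fun n => h ⟨β, n⟩) ((c • x) β)
          = c • Mop (T β) (fun n => h ⟨β, n⟩) (x β)
        rw [lp.coeFn_smul, Pi.smul_apply, map_smul] }
  refine ⟨L.mkContinuous C fun x => ?_, fun x β => rfl⟩
  have h1 : ‖L x‖ ≤ ‖(C : ℂ) • x‖ := lp.norm_mono (by norm_num) fun β => hb x β
  rwa [norm_smul, Complex.norm_real, Real.norm_of_nonneg hC0] at h1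

lemma Rep.hasSum {S : HH P →L[ℂ] HH P} {h : (Σ β, P β) → ℂ} (hS : Rep T S h) (x y : HH P) :
    HasSum (fun β => ∑ n, h ⟨β, n⟩ * ww (T β) (x β) (y β) n) ⟪y, S x⟫_ℂ := by
  have := lp.hasSum_inner (𝕜 := ℂ) y (S x)
  simp only [hS x, inner_Mop] at this
  exact this

lemma Rep.add {S S' : HH P →L[ℂ] HH P} {h g : (Σ β, P β) → ℂ} (hS : Rep T S h)
    (hS' : Rep T S' g) : Rep T (S + S') (fun n => h n + g n) := by
  intro x β
  rw [ContinuousLinearMap.add_apply, lp.coeFn_add, Pi.add_apply, hS, hS', Mop_add,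
    ContinuousLinearMap.add_apply]

lemma Rep.sub {S S' : HH P →L[ℂ] HH P} {h g : (Σ β, P β) → ℂ} (hS : Rep T S h)
    (hS' : Rep T S' g) : Rep T (S - S') (fun n => h n - g n) := by
  intro x β
  rw [ContinuousLinearMap.sub_apply, lp.coeFn_sub, Pi.sub_apply, hS, hS', Mop_sub,
    ContinuousLinearMap.sub_apply]

lemma Rep.mul (hT : ∀ β, T β * T β = 0) {S S' : HH P →L[ℂ] HH P} {h g : (Σ β, P β) → ℂ}
    (hS : Rep T S h) (hS' : Rep T S' g) : Rep T (S * S') (fun n => h n * g n) := by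
  intro x β
  rw [ContinuousLinearMap.mul_apply, hS, hS', Mop_mul (hT β), ContinuousLinearMap.mul_apply]

lemma rep_const (hT : ∀ β, T β * T β = 0) (c : ℂ) :
    Rep T (c • (1 : HH P →L[ℂ] HH P)) (fun _ => c) := by
  intro x β
  rw [Mop_const (hT β)]
  rfl

lemma Rep.aeval (hT : ∀ β, T β * T β = 0) {A : HH P →L[ℂ] HH P} {h : (Σ β, P β) → ℂ}
    (hA : Rep T A h) (p : Polynomial ℂ) :
    Rep T (Polynomial.aeval A p) (fun n => p.eval (h n)) := by
  induction p using Polynomial.induction_on with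
  | C a =>
    simp only [Polynomial.aeval_C, Polynomial.eval_C, Algebra.algebraMap_eq_smul_one]
    exact rep_const hT a
  | add p q hp hq =>
    simp only [map_add, Polynomial.eval_add]
    exact hp.add hq
  | monomial n a ih =>
    simp only [pow_succ, ← mul_assoc, map_mul, Polynomial.aeval_X, Polynomial.eval_mul,
      Polynomial.eval_X] at ih ⊢
    exact Rep.mul hT ih hA

lemma Rep.sum (hT : ∀ β, T β * T β = 0) {κ : Type} (s : Finset κ) {S : κ → HH P →L[ℂ] HH P}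
    {h : κ → (Σ β, P β) → ℂ} (hS : ∀ i, Rep T (S i) (h i)) :
    Rep T (∑ i ∈ s, S i) (fun n => ∑ i ∈ s, h i n) := by
  classical
  induction s using Finset.induction_on with
  | empty =>
    simp only [Finset.sum_empty]
    have := rep_const (T := T) hT 0
    rwa [zero_smul] at this
  | insert a s ha ih =>
    simp only [Finset.sum_insert ha]
    exact (hS a).add ih

variable [DecidableEq Bk]

/-- The eigenvector (1+T) e_n. -/
def fv (T : ∀ β, Matrix (P β) (P β) ℂ) (n : Σ β, P β) : HH P :=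
  lp.single 2 n.1 (WithLp.toLp 2 ((1 + T n.1) *ᵥ Pi.single n.2 1))

/-- The coefficient functional ((1-T) x)_n. -/
def co (T : ∀ β, Matrix (P β) (P β) ℂ) (n : Σ β, P β) : HH P →L[ℂ] ℂ :=
  (EuclideanSpace.proj n.2).comp
    ((toEuclideanCLM (n := P n.1) (𝕜 := ℂ) (1 - T n.1)).comp (lp.evalCLM ℂ _ 2 n.1))

lemma co_apply (n : Σ β, P β) (x : HH P) : co T n x = ((1 - T n.1) *ᵥ (x n.1).ofLp) n.2 := rfl

lemma co_fv (hT : ∀ β, T β * T β = 0) (n n' : Σ β, P β) :
    co T n (fv T n') = if n = n' then 1 else 0 := by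
  obtain ⟨β, a⟩ := n
  obtain ⟨β', a'⟩ := n'
  rw [co_apply]
  by_cases hβ : β = β'
  · subst hβ
    simp only [fv, lp.single_apply_self, mulVec_mulVec, inv_left (hT β), one_mulVec,
      Pi.single_apply, Sigma.mk.injEq, heq_eq_eq, true_and]
  · have : (⟨β, a⟩ : Σ β, P β) ≠ ⟨β', a'⟩ := fun h => hβ (congrArg Sigma.fst h)
    simp only [fv, if_neg this]
    rw [lp.single_apply_ne _ _ _ hβ]
    simp

lemma rep_rankOne (n : Σ β, P β) :
    Rep T ((co T n).smulRight (fv T n)) (fun n' => if n' = n then 1 else 0) := by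
  obtain ⟨β, a⟩ := n
  intro x β'
  rw [ContinuousLinearMap.smulRight_apply, lp.coeFn_smul, Pi.smul_apply, co_apply]
  by_cases hβ : β' = β
  · subst hβ
    simp only [fv, lp.single_apply_self, Sigma.mk.injEq, heq_eq_eq, true_and]
    refine (WithLp.ofLp_injective 2) ?_
    simp only [Mop, ofLp_toEuclideanCLM, WithLp.ofLp_smul]
    rw [← mulVec_mulVec, ← mulVec_mulVec, ← mulVec_smul]
    congr 1
    funext b
    rw [mulVec_diagonal, Pi.smul_apply, Pi.single_apply]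
    by_cases hb : b = a
    · simp [hb]
    · simp [hb]
  · have : ∀ b : P β', (⟨β', b⟩ : Σ β, P β) ≠ ⟨β, a⟩ := fun b h => hβ (congrArg Sigma.fst h)
    simp only [fv, if_neg (this _)]
    rw [lp.single_apply_ne _ _ _ hβ]
    simp [Mop]

lemma Rep.apply_fv (hT : ∀ β, T β * T β = 0) {S : HH P →L[ℂ] HH P} {h : (Σ β, P β) → ℂ}
    (hS : Rep T S h) (n : Σ β, P β) : S (fv T n) = h n • fv T n := by
  obtain ⟨β, a⟩ := n
  refine lp.ext (funext fun β' => ?_)
  rw [hS, lp.coeFn_smul, Pi.smul_apply]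
  by_cases hβ : β' = β
  · subst hβ
    simp only [fv, lp.single_apply_self]
    refine (WithLp.ofLp_injective 2) ?_
    simp only [Mop, ofLp_toEuclideanCLM, WithLp.ofLp_smul]
    rw [mulVec_mulVec, Matrix.mul_assoc, inv_left (hT β'), mul_one, ← mulVec_mulVec,
      ← mulVec_smul]
    congr 1
    funext b
    rw [mulVec_diagonal, Pi.smul_apply, Pi.single_apply]
    by_cases hb : b = a
    · simp [hb]
    · simp [hb]
  · simp only [fv]
    rw [lp.single_apply_ne _ _ _ hβ]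
    simp

end Sum

end Pool.Agent.ACE6
end
end

-- merged part: Pool.Agent.Work.MP_ace6cd_an.Abs
section
set_option autoImplicit false

open scoped InnerProductSpace Matrix ComplexConjugate Manifold
open Matrix Filter Topology

noncomputable section

namespace Pool.Agent.ACE6

lemma exists_antideriv (q : Polynomial ℝ) : ∃ p : Polynomial ℝ, p.derivative = q := by
  induction q using Polynomial.induction_on' with
  | add a b ha hb =>
    obtain ⟨p, hp⟩ := ha
    obtain ⟨p', hp'⟩ := hb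
    exact ⟨p + p', by rw [Polynomial.derivative_add, hp, hp']⟩
  | monomial n a =>
    refine ⟨Polynomial.monomial (n + 1) (a / (n + 1)), ?_⟩
    rw [Polynomial.derivative_monomial_succ]
    congr 1
    have : (n : ℝ) + 1 ≠ 0 := by positivity
    field_simp

lemma approx (U V : Set ℝ) {η : ℝ} (hη : 0 < η) (hUV : ∀ u ∈ U, ∀ v ∈ V, η ≤ |u - v|) {t : ℝ}
    (ht : 0 < t) : ∃ (p : Polynomial ℝ) (h : ℝ → ℝ), (∀ u ∈ U, h u = 1) ∧ (∀ v ∈ V, h v = 0) ∧
      (∀ s ∈ Set.Icc (0 : ℝ) 2, |p.eval s - h s| ≤ 2 * t) ∧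
      ∀ s ∈ Set.Icc (0 : ℝ) 2, ∀ s' ∈ Set.Icc (0 : ℝ) 2,
        |(p.eval s - h s) - (p.eval s' - h s')| ≤ t * |s - s'| := by
  have hd : Disjoint (closure V) (closure U) := by
    rw [Set.disjoint_left]
    intro z hzV hzU
    obtain ⟨v, hv, hzv⟩ := Metric.mem_closure_iff.1 hzV (η / 2) (by positivity)
    obtain ⟨u, hu, hzu⟩ := Metric.mem_closure_iff.1 hzU (η / 2) (by positivity)
    have h1 := hUV u hu v hv
    rw [Real.dist_eq] at hzv hzu
    have h2 : |u - v| ≤ |z - u| + |z - v| := by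
      have : u - v = -(z - u) + (z - v) := by ring
      rw [this]
      exact (abs_add_le _ _).trans (by rw [abs_neg])
    linarith only [hzv, hzu, h1, h2]
  obtain ⟨f, hf0, hf1, -⟩ := exists_contMDiffMap_zero_one_of_isClosed (n := 1) 𝓘(ℝ, ℝ)
    isClosed_closure isClosed_closure hd
  have hf : ContDiff ℝ 1 (f : ℝ → ℝ) := f.contMDiff.contDiff
  have hfd : Differentiable ℝ (f : ℝ → ℝ) := hf.differentiable (by norm_num)
  have hfc : Continuous (deriv (f : ℝ → ℝ)) := hf.continuous_deriv le_rfl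
  obtain ⟨q, hq⟩ := exists_polynomial_near_of_continuousOn 0 2 (deriv (f : ℝ → ℝ))
    hfc.continuousOn t ht
  obtain ⟨p0, hp0⟩ := exists_antideriv q
  let p : Polynomial ℝ := p0 + Polynomial.C (f 0 - p0.eval 0)
  have hp : p.derivative = q := by simp [p, hp0]
  have hp00 : p.eval 0 - f 0 = 0 := by simp [p]
  have hlip : ∀ s ∈ Set.Icc (0 : ℝ) 2, ∀ s' ∈ Set.Icc (0 : ℝ) 2,
      |(p.eval s - f s) - (p.eval s' - f s')| ≤ t * |s - s'| := by
    intro s hs s' hs'
    have := (convex_Icc (0 : ℝ) 2).norm_image_sub_le_of_norm_hasDerivWithin_le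
      (f := fun s => p.eval s - f s) (f' := fun s => q.eval s - deriv (f : ℝ → ℝ) s) (C := t)
      (fun z _ => by
        have h1 := p.hasDerivAt z
        rw [hp] at h1
        exact (h1.sub (hfd z).hasDerivAt).hasDerivWithinAt)
      (fun z hz => (hq z hz).le) hs' hs
    simpa only [Real.norm_eq_abs] using this
  refine ⟨p, f, fun u hu => hf1 (subset_closure hu), fun v hv => hf0 (subset_closure hv),
    fun s hs => ?_, hlip⟩
  have := hlip s hs 0 ⟨le_rfl, by norm_num⟩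
  rw [hp00, sub_zero, sub_zero, abs_of_nonneg hs.1] at this
  linarith only [this, ht, hs, hs.2, mul_nonneg_of_nonpos_of_nonpos (le_of_lt (Mathlib.Tactic.Linarith.sub_neg_of_lt ht)) (Mathlib.Tactic.Linarith.sub_nonpos_of_le hs.right)]

/-- `U` is at positive distance from its complement. -/
def Sep {I : Type} (lam : I → ℝ) (U : I → Prop) : Prop :=
  ∃ η : ℝ, 0 < η ∧ ∀ n n', U n → ¬ U n' → η ≤ |lam n - lam n'|

lemma Sep.diff {I : Type} {lam : I → ℝ} {U V : I → Prop} (hU : Sep lam U) (hV : Sep lam V) :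
    Sep lam (fun n => U n ∧ ¬ V n) := by
  obtain ⟨a, ha, hU⟩ := hU
  obtain ⟨b, hb, hV⟩ := hV
  refine ⟨min a b, lt_min ha hb, fun n n' hn hn' => ?_⟩
  by_cases h : U n'
  · have h2 : V n' := by
      by_contra h3
      exact hn' ⟨h, h3⟩
    rw [abs_sub_comm]
    exact (min_le_right _ _).trans (hV n' n h2 hn.2)
  · exact (min_le_left _ _).trans (hU n n' hn.1 h)

variable {Bk : Type} {P : Bk → Type} [∀ β, Fintype (P β)] [∀ β, DecidableEq (P β)]
  {T : ∀ β, Matrix (P β) (P β) ℂ}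

lemma norm_Mop_lip (hT : ∀ β h, T β * diagonal h * T β = 0) {lam : (Σ β, P β) → ℝ} {R : Bk → ℝ}
    (hR0 : ∀ β, 0 ≤ R β) (hR : ∀ β, ∑ a, ∑ b, ‖T β a b‖ ^ 2 ≤ R β ^ 2)
    (hosc : ∀ β a b, |lam ⟨β, a⟩ - lam ⟨β, b⟩| * R β ≤ 1) (r : (Σ β, P β) → ℂ) {s t : ℝ}
    (hs0 : 0 ≤ s) (ht0 : 0 ≤ t) (hs : ∀ n, ‖r n‖ ≤ s)
    (ht : ∀ n n', ‖r n - r n'‖ ≤ t * |lam n - lam n'|) (β : Bk) :
    ‖Mop (T β) (fun n => r ⟨β, n⟩)‖ ≤ s + t := by
  refine norm_Mop_le (hT β) _ s t hs0 ht0 (fun n => hs _) ?_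
  rcases (hR0 β).eq_or_lt with h0 | h0
  · have h1 := hR β
    rw [← h0] at h1
    have h2 : ∀ a b, ‖T β a b‖ ^ 2 = 0 := by
      intro a b
      have h3 : ‖T β a b‖ ^ 2 ≤ ∑ b, ‖T β a b‖ ^ 2 :=
        Finset.single_le_sum (f := fun b => ‖T β a b‖ ^ 2) (fun _ _ => by positivity)
          (Finset.mem_univ b)
      have h4 : ∑ b, ‖T β a b‖ ^ 2 ≤ ∑ a, ∑ b, ‖T β a b‖ ^ 2 :=
        Finset.single_le_sum (f := fun a => ∑ b, ‖T β a b‖ ^ 2) (fun _ _ => by positivity)
          (Finset.mem_univ a)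
      have h5 : 0 ≤ ‖T β a b‖ ^ 2 := by positivity
      nlinarith
    simp only [h2, zero_mul, Finset.sum_const_zero]
    positivity
  · have h1 : ∀ a b, ‖r ⟨β, b⟩ - r ⟨β, a⟩‖ ^ 2 ≤ (t / R β) ^ 2 := by
      intro a b
      refine pow_le_pow_left₀ (norm_nonneg _) ((ht _ _).trans ?_) 2
      rw [le_div_iff₀ h0, mul_assoc]
      exact mul_le_of_le_one_right ht0 (hosc β b a)
    calc ∑ a, ∑ b, ‖T β a b‖ ^ 2 * ‖r ⟨β, b⟩ - r ⟨β, a⟩‖ ^ 2
        ≤ ∑ a, ∑ b, ‖T β a b‖ ^ 2 * (t / R β) ^ 2 :=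
          Finset.sum_le_sum fun a _ => Finset.sum_le_sum fun b _ =>
            mul_le_mul_of_nonneg_left (h1 a b) (by positivity)
      _ = (∑ a, ∑ b, ‖T β a b‖ ^ 2) * (t / R β) ^ 2 := by
          simp only [Finset.sum_mul]
      _ ≤ R β ^ 2 * (t / R β) ^ 2 := by gcongr; exact hR β
      _ = t ^ 2 := by field_simp

open Classical in
lemma sep_hasSum (hT : ∀ β h, T β * diagonal h * T β = 0) {lam : (Σ β, P β) → ℝ}
    (hlam : ∀ n, lam n ∈ Set.Icc (0 : ℝ) 2) {R : Bk → ℝ}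
    (hR0 : ∀ β, 0 ≤ R β) (hR : ∀ β, ∑ a, ∑ b, ‖T β a b‖ ^ 2 ≤ R β ^ 2)
    (hosc : ∀ β a b, |lam ⟨β, a⟩ - lam ⟨β, b⟩| * R β ≤ 1) {A : HH P →L[ℂ] HH P}
    (hA : Rep T A (fun n => (lam n : ℂ))) (x y : HH P)
    (hxy : ∀ p : Polynomial ℂ, ⟪y, Polynomial.aeval A p x⟫_ℂ = 0) {U : (Σ β, P β) → Prop}
    (hU : Sep lam U) :
    HasSum (fun β => ∑ n, (if U ⟨β, n⟩ then 1 else 0) * ww (T β) (x β) (y β) n) 0 := by
  have hT2 : ∀ β, T β * T β = 0 := fun β => sq_zero (hT β)
  obtain ⟨η, hη, hU⟩ := hU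
  have key : ∀ t : ℝ, 0 < t → ∃ p : Polynomial ℂ, ∀ β,
      ‖Mop (T β) (fun n => p.eval (lam ⟨β, n⟩ : ℂ) - if U ⟨β, n⟩ then 1 else 0)‖ ≤ 2 * t + t := by
    intro t ht
    obtain ⟨p, h, h1, h0, hs, hl⟩ := approx (lam '' {n | U n}) (lam '' {n | ¬ U n}) hη
      (by rintro _ ⟨n, hn, rfl⟩ _ ⟨n', hn', rfl⟩; exact hU n n' hn hn') ht
    have he : ∀ n, (p.map Complex.ofRealHom).eval (lam n : ℂ) - (if U n then 1 else 0)
        = ((p.eval (lam n) - h (lam n) : ℝ) : ℂ) := by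
      intro n
      have e1 : (p.map Complex.ofRealHom).eval (lam n : ℂ) = ((p.eval (lam n) : ℝ) : ℂ) :=
        Polynomial.eval_map_apply (p := p) Complex.ofRealHom (lam n)
      rw [e1]
      by_cases hn : U n
      · rw [if_pos hn, h1 _ ⟨n, hn, rfl⟩]; push_cast; ring
      · rw [if_neg hn, h0 _ ⟨n, hn, rfl⟩]; push_cast; ring
    refine ⟨p.map Complex.ofRealHom, fun β => ?_⟩
    refine norm_Mop_lip hT hR0 hR hosc
      (fun n => (p.map Complex.ofRealHom).eval (lam n : ℂ) - if U n then 1 else 0)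
      (by positivity) ht.le (fun n => ?_) (fun n n' => ?_) β
    · rw [he, Complex.norm_real, Real.norm_eq_abs]
      exact hs _ (hlam n)
    · rw [he, he, ← Complex.ofReal_sub, Complex.norm_real, Real.norm_eq_abs]
      exact hl _ (hlam n) _ (hlam n')
  obtain ⟨p1, hp1⟩ := key 1 one_pos
  obtain ⟨S1, hS1⟩ := exists_rep (T := T)
    (fun n => p1.eval (lam n : ℂ) - if U n then 1 else 0) (by norm_num) hp1
  have hE : Rep T (Polynomial.aeval A p1 - S1) (fun n => if U n then 1 else 0) := by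
    have := (hA.aeval hT2 p1).sub hS1
    simpa only [sub_sub_cancel] using this
  have hz : ⟪y, (Polynomial.aeval A p1 - S1) x⟫_ℂ = 0 := by
    generalize Polynomial.aeval A p1 - S1 = E at hE
    rw [← norm_eq_zero]
    refine le_antisymm (le_of_forall_pos_le_add fun δ hδ => ?_) (norm_nonneg _)
    obtain ⟨p, hp⟩ := key (δ / (3 * (‖y‖ * ‖x‖ + 1))) (by positivity)
    have h1 := ((hA.aeval hT2 p).sub hE).norm_le (by positivity) hp
    have h2 : ⟪y, E x⟫_ℂ = -⟪y, (Polynomial.aeval A p - E) x⟫_ℂ := by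
      rw [_root_.sub_apply, inner_sub_right, hxy]; ring
    rw [h2, norm_neg, zero_add]
    refine (norm_inner_le_norm _ _).trans ?_
    have h3 := (Polynomial.aeval A p - E).le_opNorm x
    have h4 : ‖y‖ * ‖(Polynomial.aeval A p - E) x‖
        ≤ ‖y‖ * ((2 * (δ / (3 * (‖y‖ * ‖x‖ + 1))) + δ / (3 * (‖y‖ * ‖x‖ + 1))) * ‖x‖) := by
      gcongr
      exact h3.trans (by gcongr)
    refine h4.trans ?_
    have h5 : ‖y‖ * ((2 * (δ / (3 * (‖y‖ * ‖x‖ + 1))) + δ / (3 * (‖y‖ * ‖x‖ + 1))) * ‖x‖)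
        = δ * ((‖y‖ * ‖x‖) / (‖y‖ * ‖x‖ + 1)) := by field_simp; ring
    rw [h5]
    refine mul_le_of_le_one_right hδ.le ?_
    rw [div_le_one (by positivity)]
    linarith only []
  have := hE.hasSum x y
  rwa [hz] at this

lemma memℓp_of_summable {x : ∀ β, EuclideanSpace ℂ (P β)} (hx : Summable fun β => ‖x β‖ ^ 2) :
    Memℓp x 2 := by
  refine memℓp_gen ?_
  simpa using hx

lemma summable_norm_mul (x y : HH P) : Summable fun β => ‖x β‖ * ‖y β‖ :=
  lp.summable_mul (by simpa using Real.HolderConjugate.two_two) x y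

open Classical in
theorem abs_main [DecidableEq Bk] (hT : ∀ β h, T β * diagonal h * T β = 0)
    {lam : (Σ β, P β) → ℝ} (hlam : ∀ n, lam n ∈ Set.Icc (0 : ℝ) 2) (hinj : Function.Injective lam)
    {R : Bk → ℝ} (hR0 : ∀ β, 0 ≤ R β) (hR : ∀ β, ∑ a, ∑ b, ‖T β a b‖ ^ 2 ≤ R β ^ 2)
    (hosc : ∀ β a b, |lam ⟨β, a⟩ - lam ⟨β, b⟩| * R β ≤ 1) (σ : ℕ ≃ Σ β, P β) {K : ℝ}
    (hK0 : 0 ≤ K)
    (hK : ∀ (N : ℕ) β, ‖Mop (T β) (fun n => if σ.symm ⟨β, n⟩ < N then 1 else 0)‖ ≤ K)
    (h1 : ∀ x y : ∀ β, EuclideanSpace ℂ (P β), (Summable fun β => ‖x β‖ * ‖y β‖) →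
      (∀ U, Sep lam U →
        HasSum (fun β => ∑ n, (if U ⟨β, n⟩ then 1 else 0) * ww (T β) (x β) (y β) n) 0) →
      ∀ β n, ww (T β) (x β) (y β) n = 0)
    (x1 y1 x2 y2 : ∀ β, EuclideanSpace ℂ (P β)) (hx1 : Summable fun β => ‖x1 β‖ ^ 2)
    (hy1 : Summable fun β => ‖y1 β‖ ^ 2) (hx2 : Summable fun β => ‖x2 β‖ ^ 2)
    (hy2 : Summable fun β => ‖y2 β‖ ^ 2)
    (h2 : ∀ (p : Polynomial ℂ) (s : ℂ), HasSum (fun β => ∑ n, p.eval (lam ⟨β, n⟩ : ℂ) *
      (ww (T β) (x1 β) (y1 β) n + ww (T β) (x2 β) (y2 β) n)) s → s = 0)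
    (n0 : Σ β, P β)
    (h3 : ww (T n0.1) (x1 n0.1) (y1 n0.1) n0.2 + ww (T n0.1) (x2 n0.1) (y2 n0.1) n0.2 ≠ 0) :
    ∃ (A : HH P →L[ℂ] HH P) (b : SchauderBasis ℂ (HH P)) (mu : ℕ → ℝ),
      (∀ N, ‖b.proj N‖ ≤ K) ∧ Function.Injective mu ∧ (∀ n, A (b n) = (mu n : ℂ) • b n) ∧
      (∀ M : Submodule ℂ (HH P), IsClosed (M : Set (HH P)) → (∀ x ∈ M, A x ∈ M) →
        M = (Submodule.span ℂ {x | x ∈ M ∧ ∃ c : ℂ, A x = c • x}).topologicalClosure) ∧
      (∀ n, ∀ M : Submodule ℂ (HH P), IsClosed (M : Set (HH P)) → (∀ x ∈ M, A x ∈ M) →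
        ∀ x ∈ M, (b.coord n).smulRight (b n) x ∈ M) ∧
      ∃ (n : ℕ) (s : Finset (HH P × HH P)) (δ : ℝ), 0 < δ ∧ ∀ p : Polynomial ℂ, ∃ z ∈ s,
        δ ≤ ‖⟪((b.coord n).smulRight (b n) - Polynomial.aeval A p) z.1, z.2⟫_ℂ‖ := by
  have hT2 : ∀ β, T β * T β = 0 := fun β => sq_zero (hT β)
  obtain ⟨A, hA⟩ := exists_rep (T := T) (fun n => (lam n : ℂ)) (C := 2 + 1) (by norm_num)
    (norm_Mop_lip hT hR0 hR hosc (fun n => (lam n : ℂ)) (by norm_num) (by norm_num)
      (fun n => by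
        rw [Complex.norm_real, Real.norm_of_nonneg (hlam n).1]; exact (hlam n).2)
      (fun n n' => by
        rw [← Complex.ofReal_sub, Complex.norm_real, Real.norm_eq_abs, one_mul]))
  let S : ℕ → HH P →L[ℂ] HH P := fun N =>
    ∑ i ∈ Finset.range N, (co T (σ i)).smulRight (fv T (σ i))
  have hS : ∀ N, Rep T (S N) (fun n => if σ.symm n < N then 1 else 0) := by
    intro N
    have := Rep.sum hT2 (Finset.range N) (fun i => rep_rankOne (T := T) (σ i))
    have e : (fun n : Σ β, P β => ∑ i ∈ Finset.range N, if n = σ i then (1 : ℂ) else 0)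
        = fun n => if σ.symm n < N then 1 else 0 := by
      funext n
      have : ∀ i, (n = σ i) = (σ.symm n = i) := fun i => propext σ.symm_apply_eq.symm
      simp only [this, Finset.sum_ite_eq, Finset.mem_range]
    rw [← e]
    exact this
  have hSK : ∀ N, ‖S N‖ ≤ K := fun N => (hS N).norm_le hK0 (hK N)
  have hSsingle : ∀ β (v : EuclideanSpace ℂ (P β)), ∀ᶠ N in atTop,
      S N (lp.single 2 β v) = lp.single 2 β v := by
    intro β v
    have : ∀ᶠ N in atTop, ∀ a : P β, σ.symm ⟨β, a⟩ < N :=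
      Filter.eventually_all.2 fun a => eventually_gt_atTop _
    filter_upwards [this] with N hN
    refine lp.ext (funext fun β' => ?_)
    rw [hS]
    by_cases hβ : β' = β
    · subst hβ
      simp only [hN, if_true, Mop_const (hT2 β'), one_smul]
      rfl
    · rw [lp.single_apply_ne _ _ _ hβ, map_zero]
  have hconv : ∀ x : HH P, Tendsto (fun N => S N x) atTop (𝓝 x) := by
    intro x
    rw [Metric.tendsto_nhds]
    intro δ hδ
    have hs := lp.hasSum_single (E := fun β => EuclideanSpace ℂ (P β)) (p := 2) (by norm_num) x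
    obtain ⟨F, hF⟩ := (Metric.tendsto_nhds.1 hs (δ / (K + 2)) (by positivity)).exists
    have : ∀ᶠ N in atTop, ∀ β ∈ F, S N (lp.single 2 β (x β)) = lp.single 2 β (x β) :=
      (Filter.eventually_all_finset F).2 fun β _ => hSsingle β (x β)
    filter_upwards [this] with N hN
    set z : HH P := ∑ β ∈ F, lp.single 2 β (x β) with hz
    have hSz : S N z = z := by
      rw [hz, map_sum]
      exact Finset.sum_congr rfl hN
    rw [dist_eq_norm] at hF ⊢
    have e : S N x - x = (z - x) - S N (z - x) := by rw [map_sub, hSz]; abel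
    rw [e]
    refine (norm_sub_le _ _).trans_lt ?_
    have h4 := ((S N).le_opNorm (z - x)).trans
      (mul_le_mul_of_nonneg_right (hSK N) (norm_nonneg _))
    rw [lt_div_iff₀ (by positivity)] at hF
    linarith only [hF, h4, norm_nonneg (z - x)]
  let b : SchauderBasis ℂ (HH P) :=
    { basis := fun i => fv T (σ i)
      coord := fun i => co T (σ i)
      ortho := fun i j => by
        rw [co_fv hT2]
        by_cases h : i = j
        · subst h; simp
        · rw [if_neg (fun h' => h (σ.injective h'))]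
          simp [h]
      expansion := fun x => by
        rw [HasSum, SummationFilter.conditional_filter_eq_map_range, tendsto_map'_iff]
        refine (hconv x).congr fun N => ?_
        simp [S, _root_.sum_apply] }
  have hinv : ∀ n, ∀ M : Submodule ℂ (HH P), IsClosed (M : Set (HH P)) → (∀ x ∈ M, A x ∈ M) →
      ∀ x ∈ M, (co T n).smulRight (fv T n) x ∈ M := by
    intro n M hM hAM x hx
    have : CompleteSpace M := hM.completeSpace_coe
    rw [← M.orthogonal_orthogonal, Submodule.mem_orthogonal]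
    intro y hy
    have hp : ∀ p : Polynomial ℂ, Polynomial.aeval A p x ∈ M := by
      intro p
      induction p using Polynomial.induction_on with
      | C a =>
        rw [Polynomial.aeval_C, Algebra.algebraMap_eq_smul_one]
        exact M.smul_mem a hx
      | add p q hp hq => rw [map_add]; exact M.add_mem hp hq
      | monomial n a ih =>
        rw [pow_succ, ← mul_assoc, mul_comm, map_mul, Polynomial.aeval_X]
        exact hAM _ ih
    have hw := h1 x y (summable_norm_mul x y) fun U hU =>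
      sep_hasSum hT hlam hR0 hR hosc hA x y
        (fun p => Submodule.inner_left_of_mem_orthogonal (hp p) hy) hU
    have := (rep_rankOne (T := T) n).hasSum x y
    simp only [hw, mul_zero, Finset.sum_const_zero] at this
    exact this.unique hasSum_zero
  refine ⟨A, b, fun i => lam (σ i), fun N => hSK N, hinj.comp σ.injective,
    fun n => hA.apply_fv hT2 (σ n), fun M hM hAM => ?_, fun n => hinv (σ n), ?_⟩
  · refine le_antisymm (fun x hx => ?_) ?_
    · refine mem_closure_of_tendsto (hconv x) (Eventually.of_forall fun N => ?_)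
      simp only [S, _root_.sum_apply]
      refine Submodule.sum_mem _ fun i _ => Submodule.subset_span
        ⟨hinv (σ i) M hM hAM x hx, lam (σ i), ?_⟩
      rw [ContinuousLinearMap.smulRight_apply, map_smul, hA.apply_fv hT2, smul_comm]
    · exact Submodule.topologicalClosure_minimal _ (Submodule.span_le.2 fun x hx => hx.1) hM
  · let X1 : HH P := ⟨x1, memℓp_of_summable hx1⟩
    let Y1 : HH P := ⟨y1, memℓp_of_summable hy1⟩
    let X2 : HH P := ⟨x2, memℓp_of_summable hx2⟩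
    let Y2 : HH P := ⟨y2, memℓp_of_summable hy2⟩
    refine ⟨σ.symm n0, {(X1, Y1), (X2, Y2)}, _, half_pos (norm_pos_iff.2 h3), fun p => ?_⟩
    by_contra hcon
    push Not at hcon
    have c1 := hcon (X1, Y1) (by simp)
    have c2 := hcon (X2, Y2) (by simp)
    have eb : (b.coord (σ.symm n0)).smulRight (b (σ.symm n0))
        = (co T n0).smulRight (fv T n0) := by
      simp [b]
    rw [eb, norm_inner_symm, _root_.sub_apply, inner_sub_right] at c1 c2
    have hp0 : ⟪Y1, Polynomial.aeval A p X1⟫_ℂ + ⟪Y2, Polynomial.aeval A p X2⟫_ℂ = 0 := by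
      refine h2 p _ ?_
      have := ((hA.aeval hT2 p).hasSum X1 Y1).add ((hA.aeval hT2 p).hasSum X2 Y2)
      simpa only [← Finset.sum_add_distrib, ← mul_add] using this
    have hw : ∀ X Y : HH P, ⟪Y, (co T n0).smulRight (fv T n0) X⟫_ℂ
        = ww (T n0.1) (X n0.1) (Y n0.1) n0.2 := by
      intro X Y
      refine ((rep_rankOne (T := T) n0).hasSum X Y).unique ?_
      obtain ⟨β, a⟩ := n0
      have e : ww (T β) (X β) (Y β) a = ∑ n : P β,
          (if (⟨β, n⟩ : Σ β, P β) = ⟨β, a⟩ then (1 : ℂ) else 0) * ww (T β) (X β) (Y β) n := by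
        simp
      rw [e]
      refine hasSum_single β fun β' hβ => Finset.sum_eq_zero fun n _ => ?_
      rw [if_neg (fun h => hβ (congrArg Sigma.fst h)), zero_mul]
    rw [hw] at c1 c2
    have e : ww (T n0.1) (x1 n0.1) (y1 n0.1) n0.2 + ww (T n0.1) (x2 n0.1) (y2 n0.1) n0.2
        = (ww (T n0.1) (X1 n0.1) (Y1 n0.1) n0.2 - ⟪Y1, Polynomial.aeval A p X1⟫_ℂ)
          + (ww (T n0.1) (X2 n0.1) (Y2 n0.1) n0.2 - ⟪Y2, Polynomial.aeval A p X2⟫_ℂ) := by
      linear_combination hp0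
    have h5 := norm_add_le
      (ww (T n0.1) (X1 n0.1) (Y1 n0.1) n0.2 - ⟪Y1, Polynomial.aeval A p X1⟫_ℂ)
      (ww (T n0.1) (X2 n0.1) (Y2 n0.1) n0.2 - ⟪Y2, Polynomial.aeval A p X2⟫_ℂ)
    rw [← e] at h5
    linarith only [c1, c2, h5]

end Pool.Agent.ACE6
end
end

-- merged part: Pool.Agent.Work.MP_ace6cd_an.Ker
section
set_option autoImplicit false

open Filter Topology

noncomputable section

namespace Pool.Agent.ACE6

/-- The pair of times (j,k) touches the time `j₀`. -/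
def Touch (j₀ j k : ℕ) : Prop := (j ≤ j₀ ∧ j₀ ≤ k) ∨ (k ≤ j₀ ∧ j₀ ≤ j)

instance (j₀ j k : ℕ) : Decidable (Touch j₀ j k) := by unfold Touch; infer_instance

/-- A doubly stochastic kernel of mass `L` that is small across every cut. -/
structure Ker (L e : ℝ) where
  N : ℕ
  pos : 0 < N
  τ : Fin N → Fin N → ℝ
  nonneg : ∀ j k, 0 ≤ τ j k
  row : ∀ j, ∑ k, τ j k = L
  col : ∀ k, ∑ j, τ j k = L
  touch : ∀ j₀ : ℕ, ∑ j : Fin N, ∑ k : Fin N,
    (if Touch j₀ j k then τ j k ^ 2 else 0) ≤ e ^ 2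

lemma card_touch (N j₀ : ℕ) (d : Fin (N + 1)) :
    (Finset.univ.filter fun k : Fin (N + 1) => Touch j₀ (d + k).val k).card ≤ 2 * d.val + 1 := by
  have h1 : (Finset.univ.filter fun k : Fin (N + 1) => Touch j₀ (d + k).val k).card
      ≤ (Finset.Icc (j₀ - d.val) j₀ ∪ Finset.Ico (N + 1 - d.val) (N + 1)).card := by
    refine Finset.card_le_card_of_injOn Fin.val (fun k hk => ?_) Fin.val_injective.injOn
    simp only [Finset.coe_filter, Finset.mem_univ, true_and, Set.mem_ofPred_eq] at hk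
    simp only [Finset.coe_union, Finset.coe_Icc, Finset.coe_Ico, Set.mem_union, Set.mem_Icc,
      Set.mem_Ico]
    have hk2 := k.isLt
    by_cases h : d.val + k.val < N + 1
    · rw [Fin.val_add, Nat.mod_eq_of_lt h] at hk
      unfold Touch at hk
      omega
    · omega
  have h2 := Finset.card_union_le (Finset.Icc (j₀ - d.val) j₀) (Finset.Ico (N + 1 - d.val) (N + 1))
  rw [Nat.card_Icc, Nat.card_Ico] at h2
  have := d.isLt
  omega

lemma exists_ker {L e : ℝ} (hL : 0 ≤ L) (he : 0 < e) : Nonempty (Ker L e) := by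
  have h0 := Real.tendsto_sum_range_one_div_nat_succ_atTop.comp (tendsto_add_atTop_nat 1)
  obtain ⟨N, hN⟩ := (h0.eventually_ge_atTop (2 * L ^ 2 / e ^ 2 + 1)).exists
  simp only [Function.comp] at hN
  set H : ℝ := ∑ i ∈ Finset.range (N + 1), 1 / ((i : ℝ) + 1) with hH
  have hq : 0 ≤ 2 * L ^ 2 / e ^ 2 := by positivity
  have hH0 : 0 < H := by linarith only [hN, hq]
  have hsum : ∑ d : Fin (N + 1), L / H / ((d.val : ℝ) + 1) = L := by
    rw [Fin.sum_univ_eq_sum_range (fun i => L / H / ((i : ℝ) + 1)) (N + 1)]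
    have : ∀ i : ℕ, L / H / ((i : ℝ) + 1) = L / H * (1 / ((i : ℝ) + 1)) := fun i => by ring
    simp only [this]
    rw [← Finset.mul_sum, ← hH]
    field_simp
  refine ⟨⟨N + 1, Nat.succ_pos N, fun j k => L / H / (((j - k).val : ℝ) + 1),
    fun j k => by positivity, fun j => ?_, fun k => ?_, fun j₀ => ?_⟩⟩
  · exact (Fintype.sum_equiv (Equiv.subLeft j) _ _ fun k => rfl).trans hsum
  · exact (Fintype.sum_equiv (Equiv.subRight k) _ _ fun j => rfl).trans hsum
  · rw [Finset.sum_comm]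
    have e1 : ∀ k : Fin (N + 1), ∑ j : Fin (N + 1),
        (if Touch j₀ j k then (L / H / (((j - k).val : ℝ) + 1)) ^ 2 else 0)
        = ∑ d : Fin (N + 1),
          (if Touch j₀ (d + k).val k then (L / H / ((d.val : ℝ) + 1)) ^ 2 else 0) := by
      intro k
      refine Fintype.sum_equiv (Equiv.subRight k) _ _ fun j => ?_
      simp only [Equiv.subRight_apply, sub_add_cancel]
    simp only [e1]
    rw [Finset.sum_comm]
    have e2 : ∀ d : Fin (N + 1), ∑ k : Fin (N + 1),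
        (if Touch j₀ (d + k).val k then (L / H / ((d.val : ℝ) + 1)) ^ 2 else 0)
        ≤ 2 * (L / H) * (L / H / ((d.val : ℝ) + 1)) := by
      intro d
      rw [← Finset.sum_filter, Finset.sum_const, nsmul_eq_mul]
      have h1 : (((Finset.univ.filter fun k : Fin (N + 1) => Touch j₀ (d + k).val k).card : ℕ) : ℝ)
          ≤ 2 * ((d.val : ℝ) + 1) := by
        have := card_touch N j₀ d
        have h2 : (((Finset.univ.filter fun k : Fin (N + 1) =>
          Touch j₀ (d + k).val k).card : ℕ) : ℝ) ≤ ((2 * d.val + 1 : ℕ) : ℝ) := by exact_mod_cast this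
        push_cast at h2
        linarith only [h2]
      refine (mul_le_mul_of_nonneg_right h1 (by positivity)).trans (le_of_eq ?_)
      field_simp
    refine (Finset.sum_le_sum fun d _ => e2 d).trans ?_
    rw [← Finset.mul_sum, hsum]
    have h3 : 2 * L ^ 2 / e ^ 2 ≤ H := by linarith only [hN]
    rw [div_le_iff₀ (by positivity)] at h3
    have : 2 * (L / H) * L = 2 * L ^ 2 / H := by ring
    rw [this, div_le_iff₀ hH0]
    linarith only [h3]

end Pool.Agent.ACE6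
end
end

-- merged part: Pool.Agent.Work.MP_ace6cd_an.Bl
section
set_option autoImplicit false

open scoped InnerProductSpace Matrix ComplexConjugate
open Matrix Sum

noncomputable section

namespace Pool.Agent.ACE6

lemma ww_eq {ι : Type} [Fintype ι] [DecidableEq ι] (T : Matrix ι ι ℂ) (x y : EuclideanSpace ℂ ι)
    (n : ι) : ww T x y n = (x n - ∑ q, T n q * x q) * (conj (y n) + ∑ p, conj (y p) * T p n) := by
  rw [ww, sub_mulVec, one_mulVec, vecMul_add, vecMul_one]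
  rfl

lemma sum_ww {ι : Type} [Fintype ι] [DecidableEq ι] {T : Matrix ι ι ℂ} (hT : T * T = 0)
    (x y : EuclideanSpace ℂ ι) : ‖∑ n, ww T x y n‖ ≤ ‖x‖ * ‖y‖ := by
  have := inner_Mop T (fun _ => 1) x y
  simp only [one_mul, Mop_const hT, one_smul] at this
  rw [← this, mul_comm]
  exact norm_inner_le_norm y x

lemma cs_sum {ι : Type} [Fintype ι] (x y : EuclideanSpace ℂ ι) :
    ∑ n, ‖x n‖ * ‖y n‖ ≤ ‖x‖ * ‖y‖ := by
  refine (abs_le_of_sq_le_sq' ?_ (by positivity)).2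
  rw [mul_pow, EuclideanSpace.norm_sq_eq, EuclideanSpace.norm_sq_eq]
  exact Finset.sum_mul_sq_le_sq_mul_sq _ _ _

/-- The three classes of points of a block. -/
abbrev Cl (n1 n2 m : ℕ) : Type := Fin n1 ⊕ Fin n2 ⊕ Fin m

def gg (m : ℕ) (b : Fin m) : ℝ := 1 + (b.val : ℝ) / m

lemma one_le_gg {m : ℕ} (b : Fin m) : 1 ≤ gg m b := by
  unfold gg
  have : 0 ≤ (b.val : ℝ) / m := by positivity
  linarith only [this]

lemma gg_le {m : ℕ} (b : Fin m) : gg m b ≤ 2 := by
  unfold gg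
  have h1 : (b.val : ℝ) ≤ m := by exact_mod_cast b.isLt.le
  have : (b.val : ℝ) / m ≤ 1 := div_le_one_of_le₀ h1 (by positivity)
  linarith only [this]

def GG {n1 n2 m : ℕ} : Cl n1 n2 m → Cl n1 n2 m → ℝ
  | inl _, inr (inr _) => 1 / (√n1 * √m)
  | inr (inl _), inr (inr b) => gg m b / (√n2 * √m)
  | _, _ => 0

variable {n1 n2 m : ℕ}

lemma GG_1 (a : Cl n1 n2 m) (u : Fin n1) : GG a (inl u) = 0 := by
  rcases a with a | a | a <;> rfl

lemma GG_2 (a : Cl n1 n2 m) (v : Fin n2) : GG a (inr (inl v)) = 0 := by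
  rcases a with a | a | a <;> rfl

lemma GG_3 (b : Fin m) (c : Cl n1 n2 m) : GG (inr (inr b)) c = 0 := by
  rcases c with a | a | a <;> rfl

lemma GG_13 (u : Fin n1) (b : Fin m) :
    GG (inl u : Cl n1 n2 m) (inr (inr b)) = 1 / (√n1 * √m) := rfl

lemma GG_23 (v : Fin n2) (b : Fin m) :
    GG (inr (inl v) : Cl n1 n2 m) (inr (inr b)) = gg m b / (√n2 * √m) := rfl

lemma GG_hs (h1 : 0 < n1) (h2 : 0 < n2) (hm : 0 < m) :
    ∑ a : Cl n1 n2 m, ∑ c, GG a c ^ 2 ≤ 5 := by
  have p1 : (0 : ℝ) < n1 := by exact_mod_cast h1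
  have p2 : (0 : ℝ) < n2 := by exact_mod_cast h2
  have pm : (0 : ℝ) < m := by exact_mod_cast hm
  simp only [Fintype.sum_sum_type, GG_1, GG_2, GG_3, GG_13, GG_23, ne_eq, OfNat.ofNat_ne_zero,
    not_false_eq_true, zero_pow, Finset.sum_const_zero, zero_add, add_zero, div_pow, mul_pow,
    Real.sq_sqrt p1.le, Real.sq_sqrt p2.le, Real.sq_sqrt pm.le, Finset.sum_const,
    Finset.card_univ, Fintype.card_fin, nsmul_eq_mul, one_pow]
  have e1 : (n1 : ℝ) * (m * (1 / (n1 * m))) = 1 := by field_simp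
  have e2 : ∑ b : Fin m, gg m b ^ 2 / ((n2 : ℝ) * m) ≤ ∑ _b : Fin m, 4 / ((n2 : ℝ) * m) := by
    refine Finset.sum_le_sum fun b _ => div_le_div_of_nonneg_right ?_ (by positivity)
    linarith only [one_le_gg b, gg_le b, mul_nonneg_of_nonpos_of_nonpos (Mathlib.Tactic.Linarith.sub_nonpos_of_le (one_le_gg b)) (Mathlib.Tactic.Linarith.sub_nonpos_of_le (gg_le b))]
  rw [Finset.sum_const, Finset.card_univ, Fintype.card_fin, nsmul_eq_mul] at e2
  have e3 : (n2 : ℝ) * (m * (4 / (n2 * m))) = 4 := by field_simp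
  have e4 := mul_le_mul_of_nonneg_left e2 p2.le
  linarith only [e1, e3, e4]

variable {L e : ℝ}

/-- The nilpotent perturbation of a block. -/
def TT (κ : Ker L e) (n1 n2 m : ℕ) :
    Matrix (Fin κ.N × Cl n1 n2 m) (Fin κ.N × Cl n1 n2 m) ℂ :=
  fun p q => ((κ.τ p.1 q.1 * GG p.2 q.2 : ℝ) : ℂ)

lemma TT_diag (κ : Ker L e) (h : Fin κ.N × Cl n1 n2 m → ℂ) :
    TT κ n1 n2 m * diagonal h * TT κ n1 n2 m = 0 := by
  ext p r
  rw [Matrix.mul_apply, Matrix.zero_apply]
  refine Finset.sum_eq_zero fun q _ => ?_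
  rw [mul_diagonal]
  obtain ⟨k, c | c | c⟩ := q
  · simp [TT, GG_1]
  · simp [TT, GG_2]
  · simp [TT, GG_3]

lemma norm_cut (κ : Ker L e) (he : 0 ≤ e) (h1 : 0 < n1) (h2 : 0 < n2) (hm : 0 < m) (j₀ : ℕ)
    (U : Fin κ.N × Cl n1 n2 m → Prop) [DecidablePred U] (hlt : ∀ p, p.1.val < j₀ → U p)
    (hgt : ∀ p, j₀ < p.1.val → ¬ U p) :
    ‖Mop (TT κ n1 n2 m) (fun p => if U p then 1 else 0)‖ ≤ 1 + 3 * e := by
  refine norm_Mop_le (TT_diag κ) _ 1 (3 * e) zero_le_one (by positivity) (fun p => ?_) ?_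
  · split_ifs <;> simp
  have key : ∀ p q : Fin κ.N × Cl n1 n2 m, ‖TT κ n1 n2 m p q‖ ^ 2 *
      ‖(if U q then (1 : ℂ) else 0) - (if U p then 1 else 0)‖ ^ 2
      ≤ (if Touch j₀ p.1 q.1 then κ.τ p.1 q.1 ^ 2 else 0) * GG p.2 q.2 ^ 2 := by
    intro p q
    by_cases ht : Touch j₀ p.1 q.1
    · rw [if_pos ht, TT, Complex.norm_real, Real.norm_eq_abs, sq_abs, mul_pow]
      refine mul_le_of_le_one_right (by positivity) ?_
      split_ifs <;> simp
    · rw [if_neg ht, zero_mul]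
      unfold Touch at ht
      have : (p.1.val < j₀ ∧ q.1.val < j₀) ∨ (j₀ < p.1.val ∧ j₀ < q.1.val) := by omega
      rcases this with ⟨a, b⟩ | ⟨a, b⟩
      · simp [hlt p a, hlt q b]
      · simp [hgt p a, hgt q b]
  refine (Finset.sum_le_sum fun p _ => Finset.sum_le_sum fun q _ => key p q).trans ?_
  have e1 : ∑ p : Fin κ.N × Cl n1 n2 m, ∑ q : Fin κ.N × Cl n1 n2 m,
      (if Touch j₀ p.1 q.1 then κ.τ p.1 q.1 ^ 2 else 0) * GG p.2 q.2 ^ 2
      = (∑ j : Fin κ.N, ∑ k : Fin κ.N, (if Touch j₀ j k then κ.τ j k ^ 2 else 0))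
        * ∑ a : Cl n1 n2 m, ∑ c, GG a c ^ 2 := by
    simp only [Fintype.sum_prod_type, Finset.sum_mul_sum]
  rw [e1]
  have e2 := mul_le_mul (κ.touch j₀) (GG_hs h1 h2 hm) (by positivity) (by positivity)
  linarith only [e2, sq_nonneg e]

section Formulas

variable (κ : Ker L e) (x y : EuclideanSpace ℂ (Fin κ.N × Cl n1 n2 m))

def pp (k : Fin κ.N) : ℂ := ∑ j, (κ.τ j k : ℂ) * ((∑ u, conj (y (j, inl u))) / (√n1 : ℝ))

def qq (k : Fin κ.N) : ℂ := ∑ j, (κ.τ j k : ℂ) * ((∑ v, conj (y (j, inr (inl v)))) / (√n2 : ℝ))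

lemma ww_1 (j : Fin κ.N) (u : Fin n1) : ww (TT κ n1 n2 m) x y (j, inl u)
    = (x (j, inl u) - ∑ k, ∑ b, (κ.τ j k : ℂ) / ((√n1 : ℝ) * (√m : ℝ)) * x (k, inr (inr b)))
      * conj (y (j, inl u)) := by
  rw [ww_eq]
  simp only [Fintype.sum_prod_type, Fintype.sum_sum_type, TT, GG_1, GG_2, GG_13, mul_zero,
    Complex.ofReal_zero, zero_mul, Finset.sum_const_zero, zero_add, add_zero, mul_one_div,
    Complex.ofReal_div, Complex.ofReal_mul, Complex.ofReal_one]

lemma ww_2 (j : Fin κ.N) (v : Fin n2) : ww (TT κ n1 n2 m) x y (j, inr (inl v))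
    = (x (j, inr (inl v)) - ∑ k, ∑ b,
        (κ.τ j k : ℂ) * ((gg m b : ℂ) / ((√n2 : ℝ) * (√m : ℝ))) * x (k, inr (inr b)))
      * conj (y (j, inr (inl v))) := by
  rw [ww_eq]
  simp only [Fintype.sum_prod_type, Fintype.sum_sum_type, TT, GG_1, GG_2, GG_23, mul_zero,
    Complex.ofReal_zero, zero_mul, Finset.sum_const_zero, zero_add, add_zero,
    Complex.ofReal_div, Complex.ofReal_mul]

lemma ww_3 (k : Fin κ.N) (b : Fin m) : ww (TT κ n1 n2 m) x y (k, inr (inr b))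
    = x (k, inr (inr b)) * (conj (y (k, inr (inr b)))
      + (pp κ y k + (gg m b : ℂ) * qq κ y k) / (√m : ℝ)) := by
  rw [ww_eq]
  simp only [Fintype.sum_prod_type, Fintype.sum_sum_type, TT, GG_3, GG_13, GG_23, mul_zero,
    Complex.ofReal_zero, zero_mul, Finset.sum_const_zero, add_zero, sub_zero,
    Complex.ofReal_div, Complex.ofReal_mul, Complex.ofReal_one, pp, qq]
  congr 2
  simp only [Finset.mul_sum, Finset.sum_div, add_div, Finset.sum_add_distrib]
  congr 1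
  · exact Finset.sum_congr rfl fun j _ => Finset.sum_congr rfl fun u _ => by ring
  · exact Finset.sum_congr rfl fun j _ => Finset.sum_congr rfl fun u _ => by ring

lemma pp_sq (h1 : 0 < n1) (hL : 0 ≤ L) : ∑ k, ‖pp κ y k‖ ^ 2 ≤ (L * ‖y‖) ^ 2 := by
  have p1 : (0 : ℝ) < n1 := by exact_mod_cast h1
  set η : Fin κ.N → ℝ := fun j => ‖(∑ u, conj (y (j, inl u))) / ((√n1 : ℝ) : ℂ)‖ with hη
  have e1 : ∀ j, η j ^ 2 ≤ ∑ u, ‖y (j, inl u)‖ ^ 2 := by
    intro j
    simp only [hη]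
    rw [norm_div, div_pow, Complex.norm_real, Real.norm_eq_abs, sq_abs, Real.sq_sqrt p1.le,
      div_le_iff₀ p1]
    have a1 : ‖∑ u, conj (y (j, inl u))‖ ≤ ∑ u, ‖y (j, inl u)‖ :=
      (norm_sum_le _ _).trans (le_of_eq (Finset.sum_congr rfl fun u _ => RCLike.norm_conj _))
    have a2 := sq_sum_le_card_mul_sum_sq (s := Finset.univ) (f := fun u => ‖y (j, inl u)‖)
    rw [Finset.card_univ, Fintype.card_fin] at a2
    exact (pow_le_pow_left₀ (norm_nonneg _) a1 2).trans (a2.trans (le_of_eq (mul_comm _ _)))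
  have e2 : ∀ k, ‖pp κ y k‖ ^ 2 ≤ L * ∑ j, κ.τ j k * η j ^ 2 := by
    intro k
    have a1 : ‖pp κ y k‖ ≤ ∑ j, κ.τ j k * η j := by
      refine (norm_sum_le _ _).trans (le_of_eq (Finset.sum_congr rfl fun j _ => ?_))
      rw [norm_mul, Complex.norm_real, Real.norm_of_nonneg (κ.nonneg j k)]
    have a2 := Finset.sum_sq_le_sum_mul_sum_of_sq_le_mul Finset.univ
      (r := fun j => κ.τ j k * η j) (f := fun j => κ.τ j k) (g := fun j => κ.τ j k * η j ^ 2)
      (fun j _ => κ.nonneg j k) (fun j _ => mul_nonneg (κ.nonneg j k) (sq_nonneg _))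
      (fun j _ => le_of_eq (by ring))
    rw [κ.col] at a2
    exact (pow_le_pow_left₀ (norm_nonneg _) a1 2).trans a2
  have e3 : ∑ j, ∑ u, ‖y (j, inl u)‖ ^ 2 ≤ ‖y‖ ^ 2 := by
    rw [EuclideanSpace.norm_sq_eq, Fintype.sum_prod_type]
    refine Finset.sum_le_sum fun j _ => ?_
    rw [Fintype.sum_sum_type]
    exact le_add_of_nonneg_right (by positivity)
  calc ∑ k, ‖pp κ y k‖ ^ 2 ≤ ∑ k, L * ∑ j, κ.τ j k * η j ^ 2 := Finset.sum_le_sum fun k _ => e2 k
    _ = L * (L * ∑ j, η j ^ 2) := by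
      rw [← Finset.mul_sum, Finset.sum_comm]
      simp only [← Finset.sum_mul, κ.row]
      rw [← Finset.mul_sum]
    _ ≤ L * (L * ‖y‖ ^ 2) := by
      gcongr
      exact (Finset.sum_le_sum fun j _ => e1 j).trans e3
    _ = (L * ‖y‖) ^ 2 := by ring

lemma exists_bad (hm : 0 < m) (p q : ℂ) :
    ∃ b₀ : Fin m, ∀ b, b ≠ b₀ → ‖p‖ ≤ 4 * m * ‖p + (gg m b : ℂ) * q‖ := by
  have pm : (0 : ℝ) < m := by exact_mod_cast hm
  by_cases h : ∃ b₀ : Fin m, 4 * m * ‖p + (gg m b₀ : ℂ) * q‖ < ‖p‖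
  · obtain ⟨b₀, h0⟩ := h
    refine ⟨b₀, fun b hb => ?_⟩
    by_contra h1
    push Not at h1
    have e1 : ((gg m b - gg m b₀ : ℝ) : ℂ) * p
        = (gg m b : ℂ) * (p + (gg m b₀ : ℂ) * q) - (gg m b₀ : ℂ) * (p + (gg m b : ℂ) * q) := by
      push_cast; ring
    have e2 : 1 ≤ m * |gg m b - gg m b₀| := by
      have : gg m b - gg m b₀ = (((b.val : ℤ) - (b₀.val : ℤ) : ℤ) : ℝ) / m := by
        unfold gg; push_cast; ring
      rw [this, abs_div, abs_of_pos pm, mul_div_cancel₀ _ pm.ne', ← Int.cast_abs]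
      have h2 : (b.val : ℤ) - (b₀.val : ℤ) ≠ 0 := by
        intro h3
        exact hb (Fin.ext (by omega))
      exact_mod_cast Int.one_le_abs h2
    have e3 : |gg m b - gg m b₀| * ‖p‖
        ≤ 2 * ‖p + (gg m b₀ : ℂ) * q‖ + 2 * ‖p + (gg m b : ℂ) * q‖ := by
      rw [← Real.norm_eq_abs, ← Complex.norm_real, ← norm_mul, e1]
      refine (norm_sub_le _ _).trans ?_
      rw [norm_mul, norm_mul, Complex.norm_real, Complex.norm_real,
        Real.norm_of_nonneg (zero_le_one.trans (one_le_gg b)),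
        Real.norm_of_nonneg (zero_le_one.trans (one_le_gg b₀))]
      gcongr
      · exact gg_le b
      · exact gg_le b₀
    have e4 := mul_le_mul_of_nonneg_left e3 pm.le
    have e5 := mul_le_mul_of_nonneg_right e2 (norm_nonneg p)
    linarith only [h0, h1, e4, e5]
  · push Not at h
    exact ⟨⟨0, hm⟩, fun b _ => h b⟩

lemma rank_one (h1 : 0 < n1) (hm : 0 < m) (hL : 0 ≤ L)
    (hw : ∀ k b, ww (TT κ n1 n2 m) x y (k, inr (inr b)) = 0) :
    ‖∑ j, ∑ u, ww (TT κ n1 n2 m) x y (j, inl u)‖ ≤ (1 + L / √m + 4 * m) * (‖x‖ * ‖y‖) := by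
  have pm : (0 : ℝ) < m := by exact_mod_cast hm
  have sm : 0 < √(m : ℝ) := Real.sqrt_pos.2 pm
  have e1 : ∑ j, ∑ u, ww (TT κ n1 n2 m) x y (j, inl u)
      = ∑ j, ∑ u, x (j, inl u) * conj (y (j, inl u))
        - ∑ k, ∑ b, x (k, inr (inr b)) * (pp κ y k / (√m : ℝ)) := by
    simp only [ww_1, sub_mul, Finset.sum_sub_distrib, pp, Finset.mul_sum, Finset.sum_mul,
      Finset.sum_div]
    congr 1
    calc _ = ∑ j, ∑ k, ∑ b, ∑ u,
          (κ.τ j k : ℂ) / ((√n1 : ℝ) * (√m : ℝ)) * x (k, inr (inr b)) * conj (y (j, inl u)) := by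
          refine Finset.sum_congr rfl fun j _ => ?_
          rw [Finset.sum_comm]
          exact Finset.sum_congr rfl fun k _ => Finset.sum_comm
      _ = _ := by
          rw [Finset.sum_comm]
          refine Finset.sum_congr rfl fun k _ => ?_
          rw [Finset.sum_comm]
          exact Finset.sum_congr rfl fun b _ => Finset.sum_congr rfl fun j _ =>
            Finset.sum_congr rfl fun u _ => by ring
  have cs := cs_sum x y
  rw [Fintype.sum_prod_type] at cs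
  have c1 : ∑ j, ∑ u, ‖x (j, inl u)‖ * ‖y (j, inl u)‖ ≤ ‖x‖ * ‖y‖ := by
    refine le_trans (Finset.sum_le_sum fun j _ => ?_) cs
    rw [Fintype.sum_sum_type]
    exact le_add_of_nonneg_right (by positivity)
  have c3 : ∑ k, ∑ b, ‖x (k, inr (inr b))‖ * ‖y (k, inr (inr b))‖ ≤ ‖x‖ * ‖y‖ := by
    refine le_trans (Finset.sum_le_sum fun j _ => ?_) cs
    rw [Fintype.sum_sum_type, Fintype.sum_sum_type, ← add_assoc]
    exact le_add_of_nonneg_left (by positivity)
  have b1 : ‖∑ j, ∑ u, x (j, inl u) * conj (y (j, inl u))‖ ≤ ‖x‖ * ‖y‖ := by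
    refine le_trans ?_ c1
    refine (norm_sum_le _ _).trans (Finset.sum_le_sum fun j _ => (norm_sum_le _ _).trans
      (le_of_eq (Finset.sum_congr rfl fun u _ => ?_)))
    rw [norm_mul, RCLike.norm_conj]
  choose bad hbad using fun k => exists_bad hm (pp κ y k) (qq κ y k)
  have b2 : ∀ k, ‖∑ b, x (k, inr (inr b)) * (pp κ y k / (√m : ℝ))‖
      ≤ ‖x (k, inr (inr (bad k)))‖ * ‖pp κ y k‖ / √m
        + 4 * m * ∑ b, ‖x (k, inr (inr b))‖ * ‖y (k, inr (inr b))‖ := by
    intro k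
    have a1 : ∀ b, ‖x (k, inr (inr b)) * (pp κ y k / (√m : ℝ))‖
        ≤ (if b = bad k then ‖x (k, inr (inr b))‖ * ‖pp κ y k‖ / √m else 0)
          + 4 * m * (‖x (k, inr (inr b))‖ * ‖y (k, inr (inr b))‖) := by
      intro b
      rw [norm_mul, norm_div, Complex.norm_real, Real.norm_of_nonneg sm.le]
      by_cases hb : b = bad k
      · rw [if_pos hb, mul_div_assoc]
        exact le_add_of_nonneg_right (by positivity)
      · rw [if_neg hb, zero_add]
        have a2 := hw k b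
        rw [ww_3] at a2
        rcases mul_eq_zero.1 a2 with a3 | a3
        · rw [a3]; simp
        · have a4 : ‖pp κ y k + (gg m b : ℂ) * qq κ y k‖ / √m = ‖y (k, inr (inr b))‖ := by
            rw [← RCLike.norm_conj (y (k, inr (inr b))), eq_neg_of_add_eq_zero_left a3, norm_neg,
              norm_div, Complex.norm_real, Real.norm_of_nonneg sm.le]
          have a5 := div_le_div_of_nonneg_right (hbad k b hb) sm.le
          rw [mul_div_assoc, a4] at a5
          exact (mul_le_mul_of_nonneg_left a5 (norm_nonneg _)).trans (le_of_eq (by ring))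
    refine (norm_sum_le _ _).trans ((Finset.sum_le_sum fun b _ => a1 b).trans (le_of_eq ?_))
    rw [Finset.sum_add_distrib, Finset.sum_ite_eq', if_pos (Finset.mem_univ _), Finset.mul_sum]
  have b3 : ∑ k, ‖x (k, inr (inr (bad k)))‖ * ‖pp κ y k‖ ≤ ‖x‖ * (L * ‖y‖) := by
    refine (abs_le_of_sq_le_sq' ?_ (by positivity)).2
    rw [mul_pow]
    refine (Finset.sum_mul_sq_le_sq_mul_sq _ _ _).trans
      (mul_le_mul ?_ (pp_sq κ y h1 hL) (by positivity) (by positivity))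
    rw [EuclideanSpace.norm_sq_eq, Fintype.sum_prod_type]
    exact Finset.sum_le_sum fun k _ => Finset.single_le_sum
      (f := fun c => ‖x (k, c)‖ ^ 2) (fun _ _ => by positivity) (Finset.mem_univ _)
  have b4 : ‖∑ k, ∑ b, x (k, inr (inr b)) * (pp κ y k / (√m : ℝ))‖
      ≤ ‖x‖ * (L * ‖y‖) / √m + 4 * m * (‖x‖ * ‖y‖) := by
    refine (norm_sum_le _ _).trans ((Finset.sum_le_sum fun k _ => b2 k).trans ?_)
    rw [Finset.sum_add_distrib, ← Finset.sum_div, ← Finset.mul_sum]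
    gcongr
  rw [e1]
  refine (norm_sub_le _ _).trans ((add_le_add b1 b4).trans (le_of_eq (by ring)))

end Formulas

lemma rank_two (κ : Ker L e) (h1 : 0 < n1) (h2 : 0 < n2) (hm : 0 < m) (hL : 0 < L) {q : ℝ}
    (hq : 0 ≤ q) : ∃ x1 y1 x2 y2 : EuclideanSpace ℂ (Fin κ.N × Cl n1 n2 m),
      ‖x1‖ ^ 2 ≤ q / L ∧ ‖y1‖ ^ 2 ≤ q / L ∧ ‖x2‖ ^ 2 ≤ q / L ∧ ‖y2‖ ^ 2 ≤ q / L ∧
      (∀ j u, ww (TT κ n1 n2 m) x1 y1 (j, inl u) + ww (TT κ n1 n2 m) x2 y2 (j, inl u)
        = -((q / (κ.N * n1) : ℝ) : ℂ)) ∧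
      (∀ j v, ww (TT κ n1 n2 m) x1 y1 (j, inr (inl v)) + ww (TT κ n1 n2 m) x2 y2 (j, inr (inl v))
        = ((q / (κ.N * n2) : ℝ) : ℂ)) ∧
      (∀ k b, ww (TT κ n1 n2 m) x1 y1 (k, inr (inr b)) + ww (TT κ n1 n2 m) x2 y2 (k, inr (inr b))
        = 0) := by
  have p1 : (0 : ℝ) < n1 := by exact_mod_cast h1
  have p2 : (0 : ℝ) < n2 := by exact_mod_cast h2
  have pm : (0 : ℝ) < m := by exact_mod_cast hm
  have pN : (0 : ℝ) < κ.N := by exact_mod_cast κ.pos
  obtain ⟨s, hs⟩ : ∃ s : ℝ, s ^ 2 = q / (κ.N * L) := ⟨_, Real.sq_sqrt (by positivity)⟩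
  obtain ⟨r1, hr1, r1p⟩ : ∃ r : ℝ, r = √n1 ∧ 0 < r := ⟨_, rfl, Real.sqrt_pos.2 p1⟩
  obtain ⟨r2, hr2, r2p⟩ : ∃ r : ℝ, r = √n2 ∧ 0 < r := ⟨_, rfl, Real.sqrt_pos.2 p2⟩
  obtain ⟨rm, hrm, rmp⟩ : ∃ r : ℝ, r = √m ∧ 0 < r := ⟨_, rfl, Real.sqrt_pos.2 pm⟩
  have s1 : (n1 : ℝ) = r1 ^ 2 := by rw [hr1, Real.sq_sqrt p1.le]
  have s2 : (n2 : ℝ) = r2 ^ 2 := by rw [hr2, Real.sq_sqrt p2.le]
  have sm : (m : ℝ) = rm ^ 2 := by rw [hrm, Real.sq_sqrt pm.le]
  have hq' : q = s ^ 2 * (κ.N * L) := by rw [hs]; field_simp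
  have hrow : ∀ j, ∑ k, (κ.τ j k : ℂ) = L := fun j => by exact_mod_cast κ.row j
  have hcol : ∀ k, ∑ j, (κ.τ j k : ℂ) = L := fun k => by exact_mod_cast κ.col k
  have gne : ∀ b : Fin m, (gg m b : ℂ) ≠ 0 := fun b => by
    exact_mod_cast (zero_lt_one.trans_le (one_le_gg b)).ne'
  have c1 : (r1 : ℂ) ≠ 0 := by exact_mod_cast r1p.ne'
  have c2 : (r2 : ℂ) ≠ 0 := by exact_mod_cast r2p.ne'
  have cm : (rm : ℂ) ≠ 0 := by exact_mod_cast rmp.ne'
  have cN : (κ.N : ℂ) ≠ 0 := by exact_mod_cast κ.pos.ne'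
  have t1 : (n1 : ℂ) = (r1 : ℂ) ^ 2 := by exact_mod_cast s1
  have t2 : (n2 : ℂ) = (r2 : ℂ) ^ 2 := by exact_mod_cast s2
  have tm : (m : ℂ) = (rm : ℂ) ^ 2 := by exact_mod_cast sm
  refine ⟨WithLp.toLp 2 fun p => Sum.elim (fun _ => 0)
      (Sum.elim (fun _ => 0) fun _ => ((s / rm : ℝ) : ℂ)) p.2,
    WithLp.toLp 2 fun p => Sum.elim (fun _ => ((s / r1 : ℝ) : ℂ)) (fun _ => 0) p.2,
    WithLp.toLp 2 fun p => Sum.elim (fun _ => 0)
      (Sum.elim (fun _ => 0) fun b => ((s / (gg m b * rm) : ℝ) : ℂ)) p.2,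
    WithLp.toLp 2 fun p => Sum.elim (fun _ => 0)
      (Sum.elim (fun _ => ((-(s / r2) : ℝ) : ℂ)) fun _ => 0) p.2, ?_, ?_, ?_, ?_, ?_, ?_, ?_⟩
  · simp only [EuclideanSpace.norm_sq_eq, Fintype.sum_prod_type, Fintype.sum_sum_type,
      Sum.elim_inl, Sum.elim_inr, norm_zero, ne_eq, OfNat.ofNat_ne_zero, not_false_eq_true,
      zero_pow, Finset.sum_const_zero, zero_add, Complex.norm_real, Real.norm_eq_abs, sq_abs,
      Finset.sum_const, Finset.card_univ, Fintype.card_fin, nsmul_eq_mul]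
    rw [hq', sm]
    exact le_of_eq (by field_simp)
  · simp only [EuclideanSpace.norm_sq_eq, Fintype.sum_prod_type, Fintype.sum_sum_type,
      Sum.elim_inl, Sum.elim_inr, norm_zero, ne_eq, OfNat.ofNat_ne_zero, not_false_eq_true,
      zero_pow, Finset.sum_const_zero, add_zero, Complex.norm_real, Real.norm_eq_abs, sq_abs,
      Finset.sum_const, Finset.card_univ, Fintype.card_fin, nsmul_eq_mul]
    rw [hq', s1]
    exact le_of_eq (by field_simp)
  · simp only [EuclideanSpace.norm_sq_eq, Fintype.sum_prod_type, Fintype.sum_sum_type,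
      Sum.elim_inl, Sum.elim_inr, norm_zero, ne_eq, OfNat.ofNat_ne_zero, not_false_eq_true,
      zero_pow, Finset.sum_const_zero, zero_add, Complex.norm_real, Real.norm_eq_abs, sq_abs]
    have a1 : ∀ b : Fin m, (s / (gg m b * rm)) ^ 2 ≤ (s / rm) ^ 2 := by
      intro b
      rw [div_pow, div_pow, mul_pow]
      refine div_le_div_of_nonneg_left (by positivity) (by positivity) ?_
      exact le_mul_of_one_le_left (by positivity) (one_le_pow₀ (one_le_gg b))
    refine (Finset.sum_le_sum fun j _ => Finset.sum_le_sum fun b _ => a1 b).trans ?_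
    simp only [Finset.sum_const, Finset.card_univ, Fintype.card_fin, nsmul_eq_mul]
    rw [hq', sm]
    exact le_of_eq (by field_simp)
  · simp only [EuclideanSpace.norm_sq_eq, Fintype.sum_prod_type, Fintype.sum_sum_type,
      Sum.elim_inl, Sum.elim_inr, norm_zero, ne_eq, OfNat.ofNat_ne_zero, not_false_eq_true,
      zero_pow, Finset.sum_const_zero, zero_add, add_zero, Complex.norm_real, Real.norm_eq_abs,
      sq_abs, Finset.sum_const, Finset.card_univ, Fintype.card_fin, nsmul_eq_mul]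
    rw [hq', s2]
    exact le_of_eq (by field_simp)
  · intro j u
    simp only [ww_1, Sum.elim_inl, Sum.elim_inr, map_zero, mul_zero, add_zero, zero_sub,
      Finset.sum_const, Finset.card_univ, Fintype.card_fin, nsmul_eq_mul, ← hr1, ← hrm,
      Complex.conj_ofReal, div_mul_eq_mul_div, ← Finset.mul_sum, ← Finset.sum_div,
      ← Finset.sum_mul, hrow]
    rw [hq']
    push_cast
    rw [t1, tm]
    field_simp
  · intro j v
    simp only [ww_2, Sum.elim_inl, Sum.elim_inr, map_zero, mul_zero, zero_add, zero_sub,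
      ← hr2, ← hrm, Complex.conj_ofReal]
    have a1 : ∀ (k : Fin κ.N) (b : Fin m), (κ.τ j k : ℂ) * ((gg m b : ℂ) / ((r2 : ℂ) * rm))
        * ((s / (gg m b * rm) : ℝ) : ℂ) = (κ.τ j k : ℂ) * (s / (r2 * rm ^ 2)) := by
      intro k b
      have := gne b
      push_cast
      field_simp
    simp only [a1, Finset.sum_const, Finset.card_univ, Fintype.card_fin, nsmul_eq_mul,
      ← Finset.mul_sum, ← Finset.sum_mul, hrow]
    rw [hq']
    push_cast
    rw [t2, tm]
    field_simp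
  · intro k b
    simp only [ww_3, pp, qq, Sum.elim_inl, Sum.elim_inr, map_zero, mul_zero, zero_add, add_zero,
      Finset.sum_const_zero, zero_div, Finset.sum_const, Finset.card_univ, Fintype.card_fin,
      nsmul_eq_mul, ← hr1, ← hr2, ← hrm, Complex.conj_ofReal, ← Finset.sum_mul, hcol]
    have := gne b
    push_cast
    rw [t1, t2]
    field_simp
    ring

end Pool.Agent.ACE6
end
end

-- merged part: Pool.Agent.Work.MP_ace6cd_an.Tree
section
set_option autoImplicit false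

open scoped Matrix
open Matrix Sum Filter Topology

noncomputable section

namespace Pool.Agent.ACE6

section Cantor

variable {Λ : Type} [DecidableEq Λ] {ex : Λ → ℕ}

/-- Position of a finite set of labels. -/
def pos (ex : Λ → ℕ) (S : Finset Λ) : ℝ := ∑ a ∈ S, (1 / 3 : ℝ) ^ ex a

omit [DecidableEq Λ] in
lemma pos_tail (hex : Function.Injective ex) (S : Finset Λ) (s : ℕ) (hs : ∀ a ∈ S, s ≤ ex a) :
    pos ex S ≤ 3 / 2 * (1 / 3 : ℝ) ^ s := by
  have h1 : pos ex S = ∑ t ∈ S.image ex, (1 / 3 : ℝ) ^ t :=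
    (Finset.sum_image (f := fun t => (1 / 3 : ℝ) ^ t) fun a _ b _ h => hex h).symm
  have h2 : S.image ex ⊆ Finset.Ico s (S.sup ex + 1) := by
    intro t ht
    obtain ⟨a, ha, rfl⟩ := Finset.mem_image.1 ht
    exact Finset.mem_Ico.2 ⟨hs a ha, Nat.lt_succ_of_le (Finset.le_sup ha)⟩
  rw [h1]
  refine (Finset.sum_le_sum_of_subset_of_nonneg h2 fun _ _ _ => by positivity).trans ?_
  refine (geom_sum_Ico_le_of_lt_one (by norm_num) (by norm_num)).trans (le_of_eq ?_)
  ring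

omit [DecidableEq Λ] in
lemma pos_nonneg (S : Finset Λ) : 0 ≤ pos ex S := Finset.sum_nonneg fun _ _ => by positivity

omit [DecidableEq Λ] in
lemma pos_mem (hex : Function.Injective ex) (S : Finset Λ) : pos ex S ∈ Set.Icc (0 : ℝ) 2 := by
  refine ⟨pos_nonneg S, (pos_tail hex S 0 fun _ _ => Nat.zero_le _).trans ?_⟩
  norm_num

lemma pos_insert (S : Finset Λ) (a : Λ) : |pos ex (insert a S) - pos ex S| ≤ (1 / 3 : ℝ) ^ ex a := by
  by_cases h : a ∈ S
  · rw [Finset.insert_eq_of_mem h, sub_self, abs_zero]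
    positivity
  · unfold pos
    rw [Finset.sum_insert h, add_sub_cancel_right, abs_of_nonneg (by positivity)]

lemma pos_sep_aux (hex : Function.Injective ex) (S S' : Finset Λ) (a : Λ) (ha : a ∈ S \ S')
    (hmin : ∀ b ∈ S' \ S, ex a ≤ ex b) : (1 / 3 : ℝ) ^ ex a / 2 ≤ pos ex S - pos ex S' := by
  have h1 : pos ex S - pos ex S' = pos ex (S \ S') - pos ex (S' \ S) :=
    (Finset.sum_sdiff_sub_sum_sdiff).symm
  have h2 : (1 / 3 : ℝ) ^ ex a ≤ pos ex (S \ S') :=
    Finset.single_le_sum (f := fun a => (1 / 3 : ℝ) ^ ex a) (fun _ _ => by positivity) ha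
  have h3 := pos_tail hex (S' \ S) (ex a + 1) fun b hb => by
    refine Nat.succ_le_of_lt (lt_of_le_of_ne (hmin b hb) fun h => ?_)
    have := hex h
    subst this
    exact (Finset.mem_sdiff.1 hb).2 (Finset.mem_sdiff.1 ha).1
  rw [pow_succ] at h3
  linarith only [h1, h2, h3]

lemma pos_sep (hex : Function.Injective ex) (S S' : Finset Λ) (a : Λ) (ha : a ∈ S) (ha' : a ∉ S') :
    (1 / 3 : ℝ) ^ ex a / 2 ≤ |pos ex S - pos ex S'| := by
  have hmem : a ∈ (S \ S') ∪ (S' \ S) := Finset.mem_union_left _ (Finset.mem_sdiff.2 ⟨ha, ha'⟩)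
  obtain ⟨b, hb, hmin⟩ := Finset.exists_min_image _ ex ⟨a, hmem⟩
  have h1 : (1 / 3 : ℝ) ^ ex a ≤ (1 / 3 : ℝ) ^ ex b :=
    pow_le_pow_of_le_one (by norm_num) (by norm_num) (hmin a hmem)
  rcases Finset.mem_union.1 hb with h | h
  · have := pos_sep_aux hex S S' b h fun c hc => hmin c (Finset.mem_union_right _ hc)
    exact le_trans (by linarith only [h1, this]) (le_abs_self _)
  · have := pos_sep_aux hex S' S b h fun c hc => hmin c (Finset.mem_union_left _ hc)
    rw [abs_sub_comm]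
    exact le_trans (by linarith only [h1, this]) (le_abs_self _)

end Cantor

/-- Blocks: the root, or block `i` of the chain (j,k) hanging below an earlier block. -/
abbrev Blk : Type := List (ℕ × ℕ × ℤ)

def sh (t : ℤ) : Blk → Blk
  | [] => []
  | (j, k, i) :: β => (j, k, i + t) :: β

lemma sh_sh (β : Blk) : sh 1 (sh (-1) β) = β := by
  rcases β with _ | ⟨⟨j, k, i⟩, β⟩
  · rfl
  · simp [sh]

lemma sh_sh' (β : Blk) : sh (-1) (sh 1 β) = β := by
  rcases β with _ | ⟨⟨j, k, i⟩, β⟩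
  · rfl
  · simp [sh]

def nn : Blk → ℕ
  | [] => 1
  | (_, _, i) :: _ => i.natAbs + 1

lemma nn_pos (β : Blk) : 0 < nn β := by
  rcases β with _ | ⟨⟨j, k, i⟩, β⟩ <;> simp [nn]

def MM : Blk → ℝ
  | [] => 1
  | (j, k, _) :: β => 2 ^ Encodable.encode (β, j, k)

lemma one_le_MM (β : Blk) : 1 ≤ MM β := by
  rcases β with _ | ⟨⟨j, k, i⟩, β⟩
  · exact le_rfl
  · exact one_le_pow₀ (by norm_num)

def LL (β : Blk) : ℝ := MM β * (nn β * √(nn β))

lemma LL_pos (β : Blk) : 0 < LL β := by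
  have h1 := one_le_MM β
  have h2 : (0 : ℝ) < nn β := by exact_mod_cast nn_pos β
  unfold LL
  positivity

lemma eff_le (β : Blk) : 1 + LL β / √(nn β) + 4 * nn β ≤ 6 * MM β * nn β := by
  have h1 := one_le_MM β
  have h2 : (1 : ℝ) ≤ nn β := by exact_mod_cast nn_pos β
  have h3 : 0 < √(nn β : ℝ) := Real.sqrt_pos.2 (by linarith)
  have h4 : LL β / √(nn β) = MM β * nn β := by
    unfold LL
    field_simp
  rw [h4]
  linarith only [h2, h1, mul_nonneg_of_nonpos_of_nonpos (Mathlib.Tactic.Linarith.sub_nonpos_of_le (Mathlib.Tactic.Linarith.natCast_nonneg ℝ (nn β))) (Mathlib.Tactic.Linarith.sub_nonpos_of_le h1)]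

variable (e : ℝ) [he : Fact (0 < e)]

def ker (β : Blk) : Ker (LL β) e := (exists_ker (LL_pos β).le he.out).some

abbrev NN (β : Blk) : ℕ := (ker e β).N

abbrev PP (β : Blk) : Type := Fin (NN e β) × Cl (NN e (sh (-1) β)) (NN e (sh 1 β)) (nn β)

def TB (β : Blk) : Matrix (PP e β) (PP e β) ℂ := TT (ker e β) _ _ _

def RR (β : Blk) : ℝ := √(∑ a, ∑ b, ‖TB e β a b‖ ^ 2)

def dd (β : Blk) : ℝ := 1 / (RR e β + nn β)

lemma dd_pos (β : Blk) : 0 < dd e β := by
  have h2 : (0 : ℝ) < nn β := by exact_mod_cast nn_pos β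
  unfold dd RR
  positivity

lemma dd_mul (β : Blk) : dd e β * RR e β ≤ 1 := by
  have h2 : (0 : ℝ) < nn β := by exact_mod_cast nn_pos β
  have h1 : 0 ≤ RR e β := Real.sqrt_nonneg _
  rw [dd, div_mul_eq_mul_div, one_mul, div_le_one (by positivity)]
  linarith

lemma dd_le (β : Blk) : dd e β ≤ 1 / nn β := by
  have h2 : (0 : ℝ) < nn β := by exact_mod_cast nn_pos β
  have h1 : 0 ≤ RR e β := Real.sqrt_nonneg _
  exact one_div_le_one_div_of_le h2 (by linarith)

/-- Addresses of points. -/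
abbrev Adr : Type := Blk × ℕ × ℕ × Fin 3

/-- Labels. -/
abbrev Lab : Type := Blk ⊕ Adr

instance : DecidableEq Lab := Classical.decEq _

def need : Lab → ℝ
  | inl β => min (dd e β) (dd e (sh 1 β)) / 6
  | inr a => min (min (dd e a.1) (dd e (sh 1 a.1))) (dd e ((a.2.1, a.2.2.1, 1) :: a.1)) / 6

lemma need_pos (a : Lab) : 0 < need e a := by
  rcases a with β | a
  · exact div_pos (lt_min (dd_pos e _) (dd_pos e _)) (by norm_num)
  · exact div_pos (lt_min (lt_min (dd_pos e _) (dd_pos e _)) (dd_pos e _)) (by norm_num)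

def ex (a : Lab) : ℕ :=
  Nat.pair (Encodable.encode a)
    (exists_pow_lt_of_lt_one (need_pos e a) (by norm_num : (1 / 3 : ℝ) < 1)).choose

lemma ex_inj : Function.Injective (ex e) := fun _ _ h =>
  Encodable.encode_injective (Nat.pair_eq_pair.1 h).1

lemma ex_le (a : Lab) : (1 / 3 : ℝ) ^ ex e a ≤ need e a :=
  (pow_le_pow_of_le_one (by norm_num) (by norm_num) (Nat.right_le_pair _ _)).trans
    (exists_pow_lt_of_lt_one (need_pos e a) (by norm_num : (1 / 3 : ℝ) < 1)).choose_spec.le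

def sg (i : ℤ) : Fin 3 := if i ≤ 0 then 0 else 1

def SV : Blk → Finset Lab
  | [] => ∅
  | (j, k, i) :: β => insert (inl ((j, k, i) :: β)) (insert (inr (β, j, k, sg i)) (SV β))

def SM (a : Adr) : Finset Lab := insert (inr a) (SV a.1)

def pM (a : Adr) : ℝ := pos (ex e) (SM a)

def pV (β : Blk) : ℝ := pos (ex e) (SV β)

lemma pM_mem (a : Adr) : pM e a ∈ Set.Icc (0 : ℝ) 2 := pos_mem (ex_inj e) _

lemma pM_pV (a : Adr) : |pM e a - pV e a.1| ≤ (1 / 3 : ℝ) ^ ex e (inr a) := pos_insert _ _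

lemma pV_pM (j k : ℕ) (i : ℤ) (β : Blk) : |pV e ((j, k, i) :: β) - pM e (β, j, k, sg i)|
    ≤ (1 / 3 : ℝ) ^ ex e (inl ((j, k, i) :: β)) := pos_insert _ _

lemma pM_pV1 (a : Adr) : |pM e a - pV e a.1| ≤ dd e a.1 / 6 :=
  (pM_pV e a).trans ((ex_le e _).trans (div_le_div_of_nonneg_right
    ((min_le_left _ _).trans (min_le_left _ _)) (by norm_num)))

lemma pM_pV2 (a : Adr) : |pM e a - pV e a.1| ≤ dd e (sh 1 a.1) / 6 :=
  (pM_pV e a).trans ((ex_le e _).trans (div_le_div_of_nonneg_right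
    ((min_le_left _ _).trans (min_le_right _ _)) (by norm_num)))

lemma pM_pV3 (a : Adr) : |pM e a - pV e a.1| ≤ dd e ((a.2.1, a.2.2.1, 1) :: a.1) / 6 :=
  (pM_pV e a).trans ((ex_le e _).trans (div_le_div_of_nonneg_right
    (min_le_right _ _) (by norm_num)))

lemma pV_pM1 (j k : ℕ) (i : ℤ) (β : Blk) :
    |pV e ((j, k, i) :: β) - pM e (β, j, k, sg i)| ≤ dd e ((j, k, i) :: β) / 6 :=
  (pV_pM e j k i β).trans ((ex_le e _).trans (div_le_div_of_nonneg_right
    (min_le_left _ _) (by norm_num)))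

lemma pV_pM2 (j k : ℕ) (i : ℤ) (β : Blk) :
    |pV e ((j, k, i) :: β) - pM e (β, j, k, sg i)| ≤ dd e (sh 1 ((j, k, i) :: β)) / 6 :=
  (pV_pM e j k i β).trans ((ex_le e _).trans (div_le_div_of_nonneg_right
    (min_le_right _ _) (by norm_num)))

lemma pV_pred (β : Blk) : |pV e β - pV e (sh (-1) β)| ≤ 4 * dd e β / 6 := by
  rcases β with _ | ⟨⟨j, k, i⟩, β⟩
  · have := dd_pos e []
    rw [show sh (-1) ([] : Blk) = [] from rfl, sub_self, abs_zero]
    positivity
  · have h1 := abs_le.1 (pV_pM1 e j k i β)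
    have h2 := pV_pM2 e j k (i + -1) β
    rw [show ((j, k, i + -1) :: β : Blk) = sh (-1) ((j, k, i) :: β) from rfl, sh_sh] at h2
    replace h2 := abs_le.1 h2
    have h0 := dd_pos e ((j, k, i) :: β)
    by_cases hi : i = 1
    · subst hi
      have h3 := abs_le.1 (pM_pV3 e (β, j, k, sg 1))
      have h4 := abs_le.1 (pM_pV3 e (β, j, k, sg (1 + -1)))
      simp only at h3 h4
      rw [abs_le]
      constructor <;> linarith only [he, h1, h2, h3, h4]
    · have : sg (i + -1) = sg i := by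
        unfold sg
        by_cases h : i ≤ 0
        · rw [if_pos h, if_pos (by omega)]
        · rw [if_neg h, if_neg (by omega)]
      rw [this] at h2
      rw [abs_le]
      constructor <;> linarith only [he, h1, h2, h0]

lemma pM_near (a : Adr) (j k : ℕ) (i : ℤ) (β : Blk) (h : a.1 = (j, k, i) :: β) :
    |pM e a - pM e (β, j, k, sg i)| ≤ 1 / ((i.natAbs : ℝ) + 1) := by
  have h1 := abs_le.1 (pM_pV1 e a)
  rw [h] at h1
  have h2 := abs_le.1 (pV_pM1 e j k i β)
  have h3 := dd_le e ((j, k, i) :: β)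
  have h4 := dd_pos e ((j, k, i) :: β)
  have h5 : ((nn ((j, k, i) :: β) : ℕ) : ℝ) = (i.natAbs : ℝ) + 1 := by simp [nn]
  rw [h5] at h3
  rw [abs_le]
  constructor <;> linarith only [he, h1, h2, h3, h4]

/-- The address of a point. -/
def adr : (Σ β, PP e β) → Adr
  | ⟨β, (j, inl u)⟩ => (sh (-1) β, u.val, j.val, 1)
  | ⟨β, (j, inr (inl v))⟩ => (β, j.val, v.val, 0)
  | ⟨β, (j, inr (inr b))⟩ => (β, j.val, b.val, 2)

lemma adr_inj : Function.Injective (adr e) := by
  rintro ⟨β, j, u | v | b⟩ ⟨β', j', u' | v' | b'⟩ h <;>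
    simp only [adr, Prod.mk.injEq, Fin.reduceEq, and_false, and_true] at h
  · obtain ⟨h1, h2, h3⟩ := h
    have : β = β' := by rw [← sh_sh β, h1, sh_sh]
    subst this
    rw [Fin.ext h2, Fin.ext h3]
  · obtain ⟨rfl, h2, h3⟩ := h
    rw [Fin.ext h2, Fin.ext h3]
  · obtain ⟨rfl, h2, h3⟩ := h
    rw [Fin.ext h2, Fin.ext h3]

/-- The eigenvalues. -/
def lam (n : Σ β, PP e β) : ℝ := pM e (adr e n)

lemma lam_near (β : Blk) (a : PP e β) : |lam e ⟨β, a⟩ - pV e β| ≤ dd e β / 6 ∨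
    |lam e ⟨β, a⟩ - pV e (sh (-1) β)| ≤ dd e β / 6 := by
  obtain ⟨j, u | v | b⟩ := a
  · right
    have := pM_pV2 e (adr e ⟨β, j, inl u⟩)
    rwa [show (adr e ⟨β, j, inl u⟩).1 = sh (-1) β from rfl, sh_sh] at this
  · exact Or.inl (pM_pV1 e (adr e ⟨β, j, inr (inl v)⟩))
  · exact Or.inl (pM_pV1 e (adr e ⟨β, j, inr (inr b)⟩))

lemma lam_osc (β : Blk) (a b : PP e β) : |lam e ⟨β, a⟩ - lam e ⟨β, b⟩| * RR e β ≤ 1 := by
  refine le_trans (mul_le_mul_of_nonneg_right ?_ (Real.sqrt_nonneg _)) (dd_mul e β)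
  have h0 := dd_pos e β
  have h1 := abs_le.1 (pV_pred e β)
  rw [abs_le]
  rcases lam_near e β a with h | h <;> rcases lam_near e β b with h' | h' <;>
    rw [abs_le] at h h' <;> constructor <;> linarith only [he, h0, h, h', h1]

lemma mem_SV_inl (c : ℕ × ℕ × ℤ) (γ β : Blk) : inl (c :: γ) ∈ SV β ↔ c :: γ <:+ β := by
  induction β with
  | nil => simp [SV]
  | cons d β ih =>
    obtain ⟨j, k, i⟩ := d
    rw [SV, Finset.mem_insert, Finset.mem_insert, ih, List.suffix_cons_iff]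
    simp

lemma mem_SV_inr (γ : Blk) (j k : ℕ) (s : Fin 3) (β : Blk) :
    inr (γ, j, k, s) ∈ SV β ↔ ∃ l, sg l = s ∧ (j, k, l) :: γ <:+ β := by
  induction β with
  | nil => simp [SV]
  | cons d β ih =>
    obtain ⟨j', k', i⟩ := d
    rw [SV, Finset.mem_insert, Finset.mem_insert, ih]
    simp only [List.suffix_cons_iff, reduceCtorEq, inr.injEq, Prod.mk.injEq, false_or,
      List.cons.injEq]
    constructor
    · rintro (⟨rfl, rfl, rfl, rfl⟩ | ⟨l, h1, h2⟩)
      · exact ⟨i, rfl, Or.inl ⟨⟨rfl, rfl, rfl⟩, rfl⟩⟩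
      · exact ⟨l, h1, Or.inr h2⟩
    · rintro ⟨l, h1, ⟨⟨rfl, rfl, rfl⟩, rfl⟩ | h2⟩
      · exact Or.inl ⟨rfl, rfl, rfl, h1.symm⟩
      · exact Or.inr ⟨l, h1, h2⟩

lemma sep_label (a : Lab) : Sep (lam e) (fun n => a ∈ SM (adr e n)) :=
  ⟨(1 / 3 : ℝ) ^ ex e a / 2, by positivity, fun _ _ h h' => pos_sep (ex_inj e) _ _ a h h'⟩

lemma lam_inj : Function.Injective (lam e) := by
  intro n n' h
  refine adr_inj e ?_
  have key : ∀ a a' : Adr, pM e a = pM e a' → a = a' ∨ a.1.length < a'.1.length := by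
    intro a a' h
    by_cases hm : inr a ∈ SM a'
    · rcases Finset.mem_insert.1 hm with h1 | h1
      · exact Or.inl (inr_injective h1)
      · obtain ⟨γ, j, k, s⟩ := a
        obtain ⟨l, -, h2⟩ := (mem_SV_inr γ j k s _).1 h1
        exact Or.inr h2.length_le
    · have h1 := pos_sep (ex_inj e) (SM a) (SM a') (inr a) (Finset.mem_insert_self _ _) hm
      change _ ≤ |pM e a - pM e a'| at h1
      rw [h, sub_self, abs_zero] at h1
      exact absurd h1 (not_le.2 (by positivity))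
  rcases key _ _ h with h1 | h1
  · exact h1
  · rcases key _ _ h.symm with h2 | h2
    · exact h2.symm
    · omega

end Pool.Agent.ACE6
end
end

-- merged part: Pool.Agent.Work.MP_ace6cd_an.One
section
set_option autoImplicit false

open scoped Matrix
open Matrix Sum Filter Topology

noncomputable section

namespace Pool.Agent.ACE6

/-- `γ` lies below a block of the chain (β₀,j,k) with index in `J`. -/
def QQ (β₀ : Blk) (j k : ℕ) (J : ℤ → Prop) (γ : Blk) : Prop :=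
  ∃ l, J l ∧ (j, k, l) :: β₀ <:+ γ

lemma not_QQ_self (β₀ : Blk) (j k : ℕ) (J : ℤ → Prop) : ¬ QQ β₀ j k J β₀ := by
  rintro ⟨l, -, h⟩
  have := h.length_le
  simp at this

lemma QQ_chain (β₀ : Blk) (j k : ℕ) (J : ℤ → Prop) (i : ℤ) :
    QQ β₀ j k J ((j, k, i) :: β₀) ↔ J i := by
  constructor
  · rintro ⟨l, h1, h2⟩
    have := h2.eq_of_length (by simp)
    simp only [List.cons.injEq, Prod.mk.injEq, true_and, and_true] at this
    rwa [← this]
  · exact fun h => ⟨i, h, List.suffix_refl _⟩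

lemma QQ_other (β₀ : Blk) (j k : ℕ) (J : ℤ → Prop) (β : Blk) (h : ∀ i, β ≠ (j, k, i) :: β₀) :
    QQ β₀ j k J (sh (-1) β) ↔ QQ β₀ j k J β := by
  rcases β with _ | ⟨⟨j', k', i⟩, β⟩
  · rfl
  · have key : ∀ i', QQ β₀ j k J ((j', k', i') :: β) ↔ QQ β₀ j k J β := by
      intro i'
      constructor
      · rintro ⟨l, h1, h2⟩
        rcases List.suffix_cons_iff.1 h2 with h3 | h3
        · simp only [List.cons.injEq, Prod.mk.injEq] at h3
          obtain ⟨⟨rfl, rfl, -⟩, rfl⟩ := h3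
          exact absurd rfl (h i)
        · exact ⟨l, h1, h3⟩
      · rintro ⟨l, h1, h2⟩
        exact ⟨l, h1, h2.trans (List.suffix_cons _ _)⟩
    exact (key _).trans (key _).symm

lemma suffix_unique {β₀ γ : Blk} {j k : ℕ} {l l' : ℤ} (h : (j, k, l) :: β₀ <:+ γ)
    (h' : (j, k, l') :: β₀ <:+ γ) : l = l' := by
  have := (List.suffix_of_suffix_length_le h h' (by simp)).eq_of_length (by simp)
  simpa using this

variable (e : ℝ) [he : Fact (0 < e)]

def UU (β₀ : Blk) (j k : ℕ) (s : Fin 3) (J : ℤ → Prop) (n : Σ β, PP e β) : Prop :=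
  adr e n = (β₀, j, k, s) ∨ QQ β₀ j k J (adr e n).1

lemma sep_UU0 (β₀ : Blk) (j k : ℕ) (s : Fin 3) (J : ℤ → Prop) (hJ : ∀ l, J l ↔ sg l = s) :
    Sep (lam e) (UU e β₀ j k s J) := by
  have h := sep_label e (inr (β₀, j, k, s))
  have : (fun n => inr (β₀, j, k, s) ∈ SM (adr e n)) = UU e β₀ j k s J := by
    funext n
    rw [SM, Finset.mem_insert, mem_SV_inr, inr.injEq, eq_comm (a := (β₀, j, k, s))]
    simp only [UU, QQ, hJ]
  rwa [this] at h

lemma sep_UU_step (β₀ : Blk) (j k : ℕ) (s : Fin 3) (J J' : ℤ → Prop) (l₀ : ℤ)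
    (hJ : ∀ l, J' l ↔ J l ∧ l ≠ l₀) (h : Sep (lam e) (UU e β₀ j k s J)) :
    Sep (lam e) (UU e β₀ j k s J') := by
  have h1 := h.diff (sep_label e (inl ((j, k, l₀) :: β₀)))
  have : (fun n => UU e β₀ j k s J n ∧ ¬ inl ((j, k, l₀) :: β₀) ∈ SM (adr e n))
      = UU e β₀ j k s J' := by
    funext n
    rw [SM, Finset.mem_insert, mem_SV_inl]
    simp only [reduceCtorEq, false_or, UU, QQ, hJ, eq_iff_iff]
    constructor
    · rintro ⟨h2 | ⟨l, h2, h3⟩, h4⟩
      · exact Or.inl h2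
      · refine Or.inr ⟨l, ⟨h2, ?_⟩, h3⟩
        rintro rfl
        exact h4 h3
    · rintro (h2 | ⟨l, ⟨h2, h3⟩, h4⟩)
      · refine ⟨Or.inl h2, fun h5 => ?_⟩
        rw [h2] at h5
        exact not_QQ_self β₀ j k (fun _ => True) ⟨l₀, trivial, h5⟩
      · exact ⟨Or.inr ⟨l, h2, h4⟩, fun h5 => h3 (suffix_unique h4 h5)⟩
  rwa [this] at h1

variable {e}
variable (x y : ∀ β, EuclideanSpace ℂ (PP e β))

def tt (β : Blk) : ℂ := ∑ n, ww (TB e β) (x β) (y β) n

def aa (β : Blk) : ℂ := ∑ j, ∑ u, ww (TB e β) (x β) (y β) (j, inl u)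

open Classical in
lemma key_eq (hH : ∀ U, Sep (lam e) U →
      HasSum (fun β => ∑ n, (if U ⟨β, n⟩ then 1 else 0) * ww (TB e β) (x β) (y β) n) 0)
    (n₀ : Σ β, PP e β) (β₀ : Blk) (j k : ℕ) (s : Fin 3) (h₀ : adr e n₀ = (β₀, j, k, s))
    (J : ℤ → Prop) (hS : Sep (lam e) (UU e β₀ j k s J)) :
    HasSum (fun β => (if QQ β₀ j k J β then 1 else 0) * tt x y β
      + ((if QQ β₀ j k J (sh (-1) β) then 1 else 0) - (if QQ β₀ j k J β then 1 else 0))
        * aa x y β) (0 - ww (TB e n₀.1) (x n₀.1) (y n₀.1) n₀.2) := by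
  have h1 := hH _ hS
  have h2 : HasSum (fun β => ∑ n : PP e β, (if (⟨β, n⟩ : Σ β, PP e β) = n₀ then (1 : ℂ) else 0)
      * ww (TB e β) (x β) (y β) n) (ww (TB e n₀.1) (x n₀.1) (y n₀.1) n₀.2) := by
    obtain ⟨β, a⟩ := n₀
    have e1 : ww (TB e β) (x β) (y β) a = ∑ n : PP e β,
        (if (⟨β, n⟩ : Σ β, PP e β) = ⟨β, a⟩ then (1 : ℂ) else 0) * ww (TB e β) (x β) (y β) n := by
      simp
    rw [e1]
    refine hasSum_single β fun β' hβ => Finset.sum_eq_zero fun n _ => ?_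
    rw [if_neg (fun h => hβ (congrArg Sigma.fst h)), zero_mul]
  have h3 := h1.sub h2
  have e2 : ∀ n : Σ β, PP e β, (if UU e β₀ j k s J n then (1 : ℂ) else 0)
      - (if n = n₀ then 1 else 0) = if QQ β₀ j k J (adr e n).1 then 1 else 0 := by
    intro n
    by_cases hn : n = n₀
    · subst hn
      rw [if_pos (show UU e β₀ j k s J n from Or.inl h₀), if_pos rfl,
        if_neg (by rw [h₀]; exact not_QQ_self _ _ _ _), sub_self]
    · have : adr e n ≠ (β₀, j, k, s) := fun h => hn (adr_inj e (h.trans h₀.symm))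
      rw [if_neg hn, sub_zero]
      simp only [UU, this, false_or]
  refine h3.congr_fun fun β => ?_
  rw [← Finset.sum_sub_distrib]
  simp only [← sub_mul, e2, tt, aa, Fintype.sum_prod_type, Fintype.sum_sum_type, adr,
    Finset.sum_add_distrib]
  by_cases a1 : QQ β₀ j k J β <;> by_cases a2 : QQ β₀ j k J (sh (-1) β) <;>
    simp only [a1, a2, if_true, if_false, one_mul, zero_mul, Finset.sum_const_zero] <;> ring

lemma norm_tt (β : Blk) : ‖tt x y β‖ ≤ ‖x β‖ * ‖y β‖ :=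
  sum_ww (sq_zero (TT_diag _)) _ _

open Classical in
lemma vanish (hs : Summable fun β => ‖x β‖ * ‖y β‖) (hH : ∀ U, Sep (lam e) U →
      HasSum (fun β => ∑ n, (if U ⟨β, n⟩ then 1 else 0) * ww (TB e β) (x β) (y β) n) 0)
    (hB : ∀ β j b, ww (TB e β) (x β) (y β) (j, inr (inr b)) = 0)
    (n₀ : Σ β, PP e β) (β₀ : Blk) (j k : ℕ) (s : Fin 3) (h₀ : adr e n₀ = (β₀, j, k, s))
    (J : ℕ → ℤ → Prop) (hS : ∀ r, Sep (lam e) (UU e β₀ j k s (J r))) (b : ℕ → ℤ)
    (hb : Function.Injective b) (hb' : ∀ r, (b r).natAbs ≤ r + 1) (c : ℂ) (hc : ‖c‖ = 1)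
    (hJ : ∀ r l, (if J r (l + -1) then (1 : ℂ) else 0) - (if J r l then 1 else 0)
      = if l = b r then c else 0) (hJ0 : ∀ l, ∀ᶠ r in atTop, ¬ J r l) :
    ww (TB e n₀.1) (x n₀.1) (y n₀.1) n₀.2 = 0 := by
  set w := ww (TB e n₀.1) (x n₀.1) (y n₀.1) n₀.2 with hw
  have h1 : ∀ r, HasSum (fun β => (if QQ β₀ j k (J r) β then 1 else 0) * tt x y β)
      (0 - w - c * aa x y ((j, k, b r) :: β₀)) := by
    intro r
    have h2 := key_eq x y hH n₀ β₀ j k s h₀ (J r) (hS r)
    have h3 : HasSum (fun β => ((if QQ β₀ j k (J r) (sh (-1) β) then (1 : ℂ) else 0)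
        - (if QQ β₀ j k (J r) β then 1 else 0)) * aa x y β) (c * aa x y ((j, k, b r) :: β₀)) := by
      have e1 : ∀ i, ((if QQ β₀ j k (J r) (sh (-1) ((j, k, i) :: β₀)) then (1 : ℂ) else 0)
          - (if QQ β₀ j k (J r) ((j, k, i) :: β₀) then 1 else 0)) = if i = b r then c else 0 := by
        intro i
        rw [← hJ r i]
        simp only [sh, QQ_chain]
      have := hasSum_single (f := fun β => ((if QQ β₀ j k (J r) (sh (-1) β) then (1 : ℂ) else 0)
        - (if QQ β₀ j k (J r) β then 1 else 0)) * aa x y β) ((j, k, b r) :: β₀) fun β hβ => by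
          by_cases hi : ∃ i, β = (j, k, i) :: β₀
          · obtain ⟨i, rfl⟩ := hi
            rw [e1, if_neg (fun h => hβ (by rw [h])), zero_mul]
          · push Not at hi
            simp only [QQ_other β₀ j k (J r) β hi, sub_self, zero_mul]
      rwa [e1, if_pos rfl] at this
    simpa only [add_sub_cancel_right] using h2.sub h3
  have h2 : Tendsto (fun r => ∑' β, (if QQ β₀ j k (J r) β then 1 else 0) * tt x y β) atTop
      (𝓝 (∑' _ : Blk, (0 : ℂ))) := by
    refine tendsto_tsum_of_dominated_convergence hs (fun β => ?_) (Eventually.of_forall fun r β => ?_)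
    · have : ∀ᶠ r in atTop, ¬ QQ β₀ j k (J r) β := by
        by_cases hl : ∃ l, (j, k, l) :: β₀ <:+ β
        · obtain ⟨l, hl⟩ := hl
          filter_upwards [hJ0 l] with r hr
          rintro ⟨l', h3, h4⟩
          exact hr (suffix_unique h4 hl ▸ h3)
        · exact Eventually.of_forall fun r ⟨l, _, h4⟩ => hl ⟨l, h4⟩
      refine tendsto_const_nhds.congr' ?_
      filter_upwards [this] with r hr
      rw [if_neg hr, zero_mul]
    · refine le_trans ?_ (norm_tt x y β)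
      split_ifs <;> simp
  simp only [(h1 _).tsum_eq, tsum_zero] at h2
  by_contra hne
  have hpos : 0 < ‖w‖ := norm_pos_iff.2 hne
  have h3 := (tendsto_zero_iff_norm_tendsto_zero.1 h2).eventually (gt_mem_nhds (half_pos hpos))
  set M : ℝ := 2 ^ Encodable.encode (β₀, j, k) with hM
  have hM0 : 0 < M := by positivity
  have h4 : Summable fun r : ℕ => 12 * M / ‖w‖ *
      (‖x ((j, k, b r) :: β₀)‖ * ‖y ((j, k, b r) :: β₀)‖) :=
    (hs.comp_injective (i := fun r => ((j, k, b r) :: β₀ : Blk)) fun r r' h => hb (by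
      simpa using h)).mul_left _
  have h5 : Summable fun r : ℕ => 1 / (((r + 2 : ℕ) : ℝ)) := by
    refine Summable.of_norm_bounded_eventually_nat h4 ?_
    filter_upwards [h3] with r hr
    set β : Blk := (j, k, b r) :: β₀ with hβ
    have a1 : ‖aa x y β‖ ≤ (1 + LL β / √(nn β) + 4 * nn β) * (‖x β‖ * ‖y β‖) :=
      rank_one (ker e β) (x β) (y β) (ker e _).pos (nn_pos β) (LL_pos β).le (hB β)
    have a2 : 6 * MM β * nn β ≤ 6 * M * ((r + 2 : ℕ) : ℝ) := by
      have : nn β ≤ r + 2 := Nat.succ_le_succ (hb' r)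
      exact mul_le_mul_of_nonneg_left (by exact_mod_cast this) (by positivity : 0 ≤ 6 * M)
    have a3 : ‖aa x y β‖ ≤ 6 * M * ((r + 2 : ℕ) : ℝ) * (‖x β‖ * ‖y β‖) :=
      a1.trans (mul_le_mul_of_nonneg_right ((eff_le β).trans a2) (by positivity))
    have a4 : ‖w‖ ≤ ‖0 - w - c * aa x y β‖ + ‖aa x y β‖ := by
      have : w = -(0 - w - c * aa x y β) - c * aa x y β := by ring
      calc ‖w‖ = ‖-(0 - w - c * aa x y β) - c * aa x y β‖ := congrArg _ this
        _ ≤ _ := (norm_sub_le _ _).trans (by rw [norm_neg, norm_mul, hc, one_mul])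
    rw [Real.norm_of_nonneg (by positivity), div_mul_eq_mul_div,
      div_le_div_iff₀ (by positivity) hpos]
    linarith only [he, hr, a3, a4]
  exact Real.not_summable_one_div_natCast ((summable_nat_add_iff 2).1 h5)

open Classical in
theorem rank_one_all (hs : Summable fun β => ‖x β‖ * ‖y β‖) (hH : ∀ U, Sep (lam e) U →
      HasSum (fun β => ∑ n, (if U ⟨β, n⟩ then 1 else 0) * ww (TB e β) (x β) (y β) n) 0) :
    ∀ β n, ww (TB e β) (x β) (y β) n = 0 := by
  have hB : ∀ β j b, ww (TB e β) (x β) (y β) (j, inr (inr b)) = 0 := by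
    intro β j b
    have h1 := key_eq x y hH ⟨β, j, inr (inr b)⟩ β j b 2 rfl (fun _ => False)
      (sep_UU0 e _ _ _ _ _ fun l => by unfold sg; split_ifs <;> simp)
    simp only [QQ, false_and, exists_false, if_false, zero_mul, sub_self, add_zero, zero_sub] at h1
    exact neg_eq_zero.1 (h1.unique hasSum_zero)
  rintro β ⟨j, u | v | b⟩
  · refine vanish x y hs hH hB ⟨β, j, inl u⟩ (sh (-1) β) u j 1 rfl (fun r l => (r : ℤ) + 1 ≤ l)
      (fun r => ?_) (fun r => (r : ℤ) + 1) (fun r r' h => by simpa using h) (fun r => by omega)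
      (-1) (by simp) (fun r l => ?_) (fun l => ?_)
    · induction r with
      | zero =>
        refine sep_UU0 e _ _ _ _ _ fun l => ?_
        unfold sg
        split_ifs with h
        · simp only [Fin.reduceEq, iff_false]; omega
        · simp only [iff_true]; omega
      | succ r ih => exact sep_UU_step e _ _ _ _ _ _ (r + 1) (fun l => by omega) ih
    · split_ifs <;> first | omega | simp
    · filter_upwards [eventually_ge_atTop l.natAbs] with r hr
      omega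
  · refine vanish x y hs hH hB ⟨β, j, inr (inl v)⟩ β j v 0 rfl (fun r l => l ≤ -(r : ℤ))
      (fun r => ?_) (fun r => -(r : ℤ) + 1) (fun r r' h => by simpa using h) (fun r => by omega)
      1 (by simp) (fun r l => ?_) (fun l => ?_)
    · induction r with
      | zero =>
        refine sep_UU0 e _ _ _ _ _ fun l => ?_
        unfold sg
        split_ifs with h
        · simp only [iff_true]; omega
        · simp only [Fin.reduceEq, iff_false]; omega
      | succ r ih => exact sep_UU_step e _ _ _ _ _ _ (-r) (fun l => by omega) ih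
    · split_ifs <;> first | omega | simp
    · filter_upwards [eventually_ge_atTop (l.natAbs + 1)] with r hr
      omega
  · exact hB β j b

end Pool.Agent.ACE6
end
end

-- merged part: Pool.Agent.Work.MP_ace6cd_an.Two
section
set_option autoImplicit false

open scoped Matrix
open Matrix Sum Filter Topology

noncomputable section

namespace Pool.Agent.ACE6

/-- Block `i` of a chain. -/
def node (c : (Blk × ℕ × ℕ) × ℤ) : Blk := (c.1.2.1, c.1.2.2, c.2) :: c.1.1

lemma node_inj : Function.Injective node := by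
  rintro ⟨⟨β, j, k⟩, i⟩ ⟨⟨β', j', k'⟩, i'⟩ h
  simp only [node, List.cons.injEq, Prod.mk.injEq] at h
  obtain ⟨⟨rfl, rfl, rfl⟩, rfl⟩ := h
  rfl

lemma hasSum_blk {E : Type} [NormedAddCommGroup E] {F : Blk → E} {s : E}
    (h : HasSum (F ∘ node) s) : HasSum F (F [] + s) := by
  have h1 : HasSum (fun β => if β = [] then 0 else F β) s := by
    refine (node_inj.hasSum_iff fun β hβ => ?_).1 (h.congr_fun fun c => ?_)
    · rcases β with _ | ⟨⟨j, k, i⟩, β⟩
      · simp
      · exact absurd ⟨((β, j, k), i), rfl⟩ hβ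
    · simp [node]
  refine ((hasSum_ite_eq ([] : Blk) (F [])).add h1).congr_fun fun β => ?_
  split_ifs with hβ
  · rw [hβ, add_zero]
  · rw [zero_add]

lemma summable_inv_LL : Summable fun β => 1 / LL β := by
  have h1 : Summable fun c : Blk × ℕ × ℕ => (1 / 2 : ℝ) ^ Encodable.encode c :=
    summable_geometric_two.comp_injective Encodable.encode_injective
  have h2 : Summable fun n : ℕ => 1 / ((n : ℝ) * √n) := by
    refine (Real.summable_nat_rpow_inv.2 (by norm_num : (1 : ℝ) < 1 + 1 / 2)).congr fun n => ?_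
    rw [Real.rpow_add' (by positivity) (by norm_num), Real.rpow_one, Real.sqrt_eq_rpow, one_div,
      one_div]
  have h3 : Summable fun n : ℕ => 1 / (((n + 1 : ℕ) : ℝ) * √((n + 1 : ℕ) : ℝ)) :=
    (summable_nat_add_iff (f := fun n : ℕ => 1 / ((n : ℝ) * √n)) 1).2 h2
  have h4 : Summable fun i : ℤ =>
      1 / (((i.natAbs + 1 : ℕ) : ℝ) * √((i.natAbs + 1 : ℕ) : ℝ)) :=
    Summable.of_nat_of_neg (by simpa only [Int.natAbs_natCast] using h3)
      (by simpa only [Int.natAbs_neg, Int.natAbs_natCast] using h3)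
  have h5 := h1.mul_of_nonneg h4 (fun _ => by positivity) (fun _ => by positivity)
  have h6 : Summable ((fun β => 1 / LL β) ∘ node) := by
    refine h5.congr fun c => ?_
    obtain ⟨⟨β, j, k⟩, i⟩ := c
    simp only [Function.comp, node, LL, MM, nn, one_div, inv_pow, mul_inv]
  exact (hasSum_blk h6.hasSum).summable

lemma poly_lip (p : Polynomial ℂ) : ∃ K : ℝ, 0 ≤ K ∧ ∀ s ∈ Set.Icc (0 : ℝ) 2,
    ∀ s' ∈ Set.Icc (0 : ℝ) 2, ‖p.eval (s : ℂ) - p.eval (s' : ℂ)‖ ≤ K * |s - s'| := by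
  have hc : Continuous fun t : ℝ => p.derivative.eval (t : ℂ) :=
    p.derivative.continuous.comp Complex.continuous_ofReal
  obtain ⟨K, hK⟩ := (isCompact_Icc (a := (0 : ℝ)) (b := 2)).exists_bound_of_continuousOn
    hc.continuousOn
  refine ⟨K, (norm_nonneg _).trans (hK 0 ⟨le_rfl, by norm_num⟩), fun s hs s' hs' => ?_⟩
  exact (convex_Icc (0 : ℝ) 2).norm_image_sub_le_of_norm_hasDerivWithin_le
    (f := fun t : ℝ => p.eval (t : ℂ)) (f' := fun t : ℝ => p.derivative.eval (t : ℂ))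
    (fun z _ => (p.hasDerivAt (z : ℂ)).comp_ofReal.hasDerivWithinAt) hK hs' hs

lemma telescope {g : ℤ → ℂ} {a b : ℂ} (hs : Summable fun i => g i - g (i + -1))
    (ha : Tendsto (fun n : ℕ => g ((n : ℤ) + -1)) atTop (𝓝 a))
    (hb : Tendsto (fun n : ℕ => g (-(n : ℤ) + -1)) atTop (𝓝 b)) :
    HasSum (fun i => g i - g (i + -1)) (a - b) := by
  have h1 := hs.hasSum.nat_add_neg_add_one.tendsto_sum_nat
  have h2 : ∀ N : ℕ, ∑ n ∈ Finset.range N, (g n - g (n + -1) + (g (-(n + 1)) - g (-(n + 1) + -1)))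
      = g (N + -1) - g (-N + -1) := by
    intro N
    induction N with
    | zero => simp
    | succ N ih =>
      rw [Finset.sum_range_succ, ih]
      have e1 : ((N + 1 : ℕ) : ℤ) + -1 = N := by push_cast; ring
      have e2 : -((N + 1 : ℕ) : ℤ) + -1 = -(N + 1) + -1 := by push_cast; ring
      have e3 : -(N : ℤ) + -1 = -(N + 1) := by ring
      rw [e1, e2, e3]
      ring
  simp only [h2] at h1
  rw [← tendsto_nhds_unique h1 (ha.sub hb)]
  exact hs.hasSum

variable (e : ℝ) [he : Fact (0 < e)]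

/-- The flux carried by a block. -/
def fl : Blk → ℝ
  | [] => 1
  | (j, k, _) :: β =>
    if j < NN e β ∧ k < NN e (sh 1 β) then fl β / (NN e β * NN e (sh 1 β)) else 0

lemma fl_mem (β : Blk) : 0 ≤ fl e β ∧ fl e β ≤ 1 := by
  induction β with
  | nil => exact ⟨zero_le_one, le_rfl⟩
  | cons d β ih =>
    obtain ⟨j, k, i⟩ := d
    rw [fl]
    split_ifs
    · have h1 : (1 : ℝ) ≤ NN e β := by exact_mod_cast (ker e β).pos
      have h2 : (1 : ℝ) ≤ NN e (sh 1 β) := by exact_mod_cast (ker e _).pos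
      exact ⟨div_nonneg ih.1 (by positivity),
        div_le_one_of_le₀ (ih.2.trans (one_le_mul_of_one_le_of_one_le h1 h2)) (by positivity)⟩
    · exact ⟨le_rfl, zero_le_one⟩

lemma fl_sh (t : ℤ) (β : Blk) : fl e (sh t β) = fl e β := by
  rcases β with _ | ⟨⟨j, k, i⟩, β⟩ <;> rfl

/-- Weighted mean of `p` over the addresses of sign `s` located at `β`. -/
def av (p : Polynomial ℂ) (s : Fin 3) (β : Blk) : ℂ :=
  ((fl e β / (NN e β * NN e (sh 1 β)) : ℝ) : ℂ) * ∑ j ∈ Finset.range (NN e β),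
    ∑ k ∈ Finset.range (NN e (sh 1 β)), p.eval (pM e (β, j, k, s) : ℂ)

lemma av_near (p : Polynomial ℂ) (s : Fin 3) (β : Blk) (c : ℂ) (δ : ℝ)
    (h : ∀ j k, ‖p.eval (pM e (β, j, k, s) : ℂ) - c‖ ≤ δ) :
    ‖av e p s β - fl e β * c‖ ≤ δ := by
  have h1 : (0 : ℝ) < NN e β := by exact_mod_cast (ker e β).pos
  have h2 : (0 : ℝ) < NN e (sh 1 β) := by exact_mod_cast (ker e _).pos
  have c1 : (NN e β : ℂ) ≠ 0 := by exact_mod_cast (ker e β).pos.ne'
  have c2 : (NN e (sh 1 β) : ℂ) ≠ 0 := by exact_mod_cast (ker e _).pos.ne'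
  have h0 : 0 ≤ δ := (norm_nonneg _).trans (h 0 0)
  have hf := fl_mem e β
  have e1 : av e p s β - fl e β * c = ((fl e β / (NN e β * NN e (sh 1 β)) : ℝ) : ℂ) *
      ∑ j ∈ Finset.range (NN e β), ∑ k ∈ Finset.range (NN e (sh 1 β)),
        (p.eval (pM e (β, j, k, s) : ℂ) - c) := by
    simp only [av, Finset.sum_sub_distrib, Finset.sum_const, Finset.card_range, nsmul_eq_mul]
    push_cast
    field_simp
  have e2 : ‖∑ j ∈ Finset.range (NN e β), ∑ k ∈ Finset.range (NN e (sh 1 β)),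
      (p.eval (pM e (β, j, k, s) : ℂ) - c)‖ ≤ NN e β * (NN e (sh 1 β) * δ) := by
    refine (norm_sum_le _ _).trans ((Finset.sum_le_sum fun j _ => (norm_sum_le _ _).trans
      (Finset.sum_le_sum fun k _ => h j k)).trans (le_of_eq ?_))
    simp only [Finset.sum_const, Finset.card_range, nsmul_eq_mul]
  rw [e1, norm_mul, Complex.norm_real, Real.norm_of_nonneg (div_nonneg hf.1 (by positivity))]
  refine (mul_le_mul_of_nonneg_left e2 (div_nonneg hf.1 (by positivity))).trans ?_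
  have : fl e β / (NN e β * NN e (sh 1 β)) * (NN e β * (NN e (sh 1 β) * δ)) = fl e β * δ := by
    field_simp
  rw [this]
  exact mul_le_of_le_one_left h0 hf.2

lemma flow_zero (p : Polynomial ℂ) (s : ℂ)
    (h : HasSum (fun β => av e p 0 β - av e p 1 (sh (-1) β)) s) : s = 0 := by
  obtain ⟨K, hK0, hK⟩ := poly_lip p
  let D : Blk × ℕ × ℕ → ℂ := fun c => (fl e ((c.2.1, c.2.2, 0) :: c.1) : ℂ) *
    (p.eval (pM e (c.1, c.2.1, c.2.2, 1) : ℂ) - p.eval (pM e (c.1, c.2.1, c.2.2, 0) : ℂ))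
  have hom : Summable fun a : Lab => (1 / 3 : ℝ) ^ ex e a :=
    (summable_geometric_of_lt_one (by norm_num) (by norm_num)).comp_injective (ex_inj e)
  have hom' : ∀ t : Fin 3, Summable fun c : Blk × ℕ × ℕ =>
      (1 / 3 : ℝ) ^ ex e (inr (c.1, c.2.1, c.2.2, t)) := fun t =>
    hom.comp_injective (i := fun c : Blk × ℕ × ℕ => (inr (c.1, c.2.1, c.2.2, t) : Lab)) (by
      rintro ⟨β, j, k⟩ ⟨β', j', k'⟩ h
      simpa using h)
  have hD : Summable D := by
    refine Summable.of_norm_bounded (((hom' 1).add (hom' 0)).mul_left K) fun c => ?_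
    have hf := fl_mem e ((c.2.1, c.2.2, 0) :: c.1)
    rw [norm_mul, Complex.norm_real, Real.norm_of_nonneg hf.1]
    refine (mul_le_of_le_one_left (norm_nonneg _) hf.2).trans
      ((hK _ (pM_mem e _) _ (pM_mem e _)).trans (mul_le_mul_of_nonneg_left ?_ hK0))
    have h1 := abs_le.1 (pM_pV e (c.1, c.2.1, c.2.2, 1))
    have h2 := abs_le.1 (pM_pV e (c.1, c.2.1, c.2.2, 0))
    simp only at h1 h2
    rw [abs_le]
    constructor <;> linarith only [he, h1, h2]
  have h1 : HasSum (fun β => av e p 1 β - av e p 0 β) (∑' c, D c) := by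
    refine hD.hasSum.prod_fiberwise fun β => ?_
    have h2 : HasSum (fun c : ℕ × ℕ => D (β, c))
        (∑ c ∈ Finset.range (NN e β) ×ˢ Finset.range (NN e (sh 1 β)), D (β, c)) := by
      refine hasSum_sum_of_ne_finset_zero fun c hc => ?_
      simp only [Finset.mem_product, Finset.mem_range] at hc
      simp only [D, fl, if_neg hc, Complex.ofReal_zero, zero_mul]
    have h3 : ∑ c ∈ Finset.range (NN e β) ×ˢ Finset.range (NN e (sh 1 β)), D (β, c)
        = av e p 1 β - av e p 0 β := by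
      rw [av, av, ← mul_sub, ← Finset.sum_sub_distrib, Finset.sum_product, Finset.mul_sum]
      refine Finset.sum_congr rfl fun j hj => ?_
      rw [← Finset.sum_sub_distrib, Finset.mul_sum]
      refine Finset.sum_congr rfl fun k hk => ?_
      simp only [D, fl, if_pos (And.intro (Finset.mem_range.1 hj) (Finset.mem_range.1 hk))]
    rwa [h3] at h2
  have h2 : HasSum (fun β => av e p 1 β - av e p 1 (sh (-1) β)) (s + ∑' c, D c) :=
    (h.add h1).congr_fun fun β => by ring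
  have h3 := (h2.summable.comp_injective node_inj).hasSum
  have h4 := hasSum_blk h3
  have h5 := h3.prod_fiberwise (g := D) fun c => by
    obtain ⟨β, j, k⟩ := c
    have hs := (h2.summable.comp_injective node_inj).comp_injective
      (i := fun i : ℤ => ((β, j, k), i)) fun i i' h => by simpa using h
    have hnear : ∀ i : ℤ, ‖av e p 1 ((j, k, i) :: β) - fl e ((j, k, 0) :: β)
        * p.eval (pM e (β, j, k, sg i) : ℂ)‖ ≤ K * (1 / ((i.natAbs : ℝ) + 1)) := by
      intro i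
      refine av_near e p 1 ((j, k, i) :: β) _ _ fun j' k' => ?_
      exact (hK _ (pM_mem e _) _ (pM_mem e _)).trans
        (mul_le_mul_of_nonneg_left (pM_near e _ j k i β rfl) hK0)
    have hlim : Tendsto (fun n : ℕ => K * (1 / (n : ℝ))) atTop (𝓝 0) := by
      simpa using tendsto_one_div_atTop_nhds_zero_nat.const_mul K
    have := telescope (g := fun i => av e p 1 ((j, k, i) :: β))
      (a := fl e ((j, k, 0) :: β) * p.eval (pM e (β, j, k, 1) : ℂ))
      (b := fl e ((j, k, 0) :: β) * p.eval (pM e (β, j, k, 0) : ℂ)) hs ?_ ?_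
    · rw [← mul_sub] at this
      exact this
    · rw [tendsto_iff_norm_sub_tendsto_zero]
      refine squeeze_zero' (Eventually.of_forall fun _ => norm_nonneg _) ?_ hlim
      filter_upwards [eventually_ge_atTop 2] with n hn
      have h6 := hnear ((n : ℤ) + -1)
      have h7 : sg ((n : ℤ) + -1) = 1 := if_neg (by omega)
      have h8 : ((((n : ℤ) + -1).natAbs : ℕ) : ℝ) + 1 = n := by
        have : ((n : ℤ) + -1).natAbs + 1 = n := by omega
        exact_mod_cast this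
      rwa [h7, h8] at h6
    · rw [tendsto_iff_norm_sub_tendsto_zero]
      refine squeeze_zero' (Eventually.of_forall fun _ => norm_nonneg _) ?_ hlim
      filter_upwards [eventually_ge_atTop 1] with n hn
      have h6 := hnear (-(n : ℤ) + -1)
      have h7 : sg (-(n : ℤ) + -1) = 0 := if_pos (by omega)
      have h8 : (n : ℝ) ≤ (((-(n : ℤ) + -1).natAbs : ℕ) : ℝ) + 1 := by
        have : n ≤ (-(n : ℤ) + -1).natAbs + 1 := by omega
        exact_mod_cast this
      rw [h7] at h6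
      exact h6.trans (mul_le_mul_of_nonneg_left
        (one_div_le_one_div_of_le (by exact_mod_cast hn) h8) hK0)
  have h6 := h2.unique h4
  rw [← h5.tsum_eq, show sh (-1) ([] : Blk) = [] from rfl, sub_self, zero_add] at h6
  simpa using h6

theorem rank_two_all : ∃ x1 y1 x2 y2 : ∀ β, EuclideanSpace ℂ (PP e β),
    (Summable fun β => ‖x1 β‖ ^ 2) ∧ (Summable fun β => ‖y1 β‖ ^ 2) ∧
    (Summable fun β => ‖x2 β‖ ^ 2) ∧ (Summable fun β => ‖y2 β‖ ^ 2) ∧
    (∀ (p : Polynomial ℂ) (s : ℂ), HasSum (fun β => ∑ n, p.eval (lam e ⟨β, n⟩ : ℂ) *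
      (ww (TB e β) (x1 β) (y1 β) n + ww (TB e β) (x2 β) (y2 β) n)) s → s = 0) ∧
    ∃ n0 : Σ β, PP e β,
      ww (TB e n0.1) (x1 n0.1) (y1 n0.1) n0.2 + ww (TB e n0.1) (x2 n0.1) (y2 n0.1) n0.2 ≠ 0 := by
  choose x1 y1 x2 y2 a1 a2 a3 a4 b1 b2 b3 using fun β =>
    rank_two (n1 := NN e (sh (-1) β)) (n2 := NN e (sh 1 β)) (m := nn β) (ker e β) (ker e _).pos
      (ker e _).pos (nn_pos β) (LL_pos β) (fl_mem e β).1
  have hs : ∀ x : ∀ β, EuclideanSpace ℂ (PP e β), (∀ β, ‖x β‖ ^ 2 ≤ fl e β / LL β) →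
      Summable fun β => ‖x β‖ ^ 2 := fun x hx =>
    Summable.of_nonneg_of_le (fun _ => by positivity)
      (fun β => (hx β).trans (div_le_div_of_nonneg_right (fl_mem e β).2 (LL_pos β).le))
      summable_inv_LL
  refine ⟨x1, y1, x2, y2, hs _ a1, hs _ a2, hs _ a3, hs _ a4, fun p s h => ?_,
    ⟨[], ⟨0, (ker e _).pos⟩, inr (inl ⟨0, (ker e _).pos⟩)⟩, ?_⟩
  · refine flow_zero e p s (h.congr_fun fun β => ?_)
    simp only [Fintype.sum_prod_type, Fintype.sum_sum_type, TB, b1, b2, b3, mul_zero,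
      Finset.sum_const_zero, add_zero, Finset.sum_add_distrib, lam, adr, av, sh_sh, fl_sh,
      ← Finset.sum_mul]
    rw [Finset.sum_comm (s := Finset.range (NN e (sh (-1) β))), mul_comm (NN e (sh (-1) β) : ℝ)]
    simp only [Finset.sum_range]
    ring
  · have := b2 [] ⟨0, (ker e _).pos⟩ ⟨0, (ker e _).pos⟩
    simp only [TB]
    rw [this]
    have h1 : (0 : ℝ) < NN e [] := by exact_mod_cast (ker e _).pos
    have h2 : (0 : ℝ) < NN e (sh 1 []) := by exact_mod_cast (ker e _).pos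
    have h3 : 0 < fl e [] / (NN e [] * NN e (sh 1 [])) := div_pos zero_lt_one (mul_pos h1 h2)
    exact_mod_cast h3.ne'

end Pool.Agent.ACE6
end
end

-- merged part: Pool.Agent.Work.MP_ace6cd_an.Main
section
set_option autoImplicit false

open scoped InnerProductSpace Matrix
open Matrix Sum Filter Topology

noncomputable section

namespace Pool.Agent.ACE6

lemma exists_enum {I : Type} [Infinite I] (κ : I → ℕ) (hκ : Function.Injective κ) :
    ∃ σ : ℕ ≃ I, ∀ n n', κ n < κ n' → σ.symm n < σ.symm n' := by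
  have : Infinite (Set.range κ) := (Set.infinite_range_of_injective hκ).to_subtype
  refine ⟨(Nat.Subtype.orderIsoOfNat (Set.range κ)).toEquiv.trans (Equiv.ofInjective κ hκ).symm,
    fun n n' h => ?_⟩
  exact (Nat.Subtype.orderIsoOfNat (Set.range κ)).symm.strictMono
    (show (⟨κ n, n, rfl⟩ : Set.range κ) < ⟨κ n', n', rfl⟩ from h)

def rank {N : ℕ} {C : Type} [Fintype C] (p : Fin N × C) : ℕ :=
  p.1.val * Fintype.card C + (Fintype.equivFin C p.2).val

lemma rank_lt {N : ℕ} {C : Type} [Fintype C] {p q : Fin N × C} (h : p.1.val < q.1.val) :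
    rank p < rank q := by
  unfold rank
  have h1 := (Fintype.equivFin C p.2).isLt
  have h2 : (p.1.val + 1) * Fintype.card C ≤ q.1.val * Fintype.card C :=
    Nat.mul_le_mul_right _ h
  rw [add_mul, one_mul] at h2
  omega

variable (e : ℝ) [he : Fact (0 < e)]

lemma exists_order : ∃ σ : ℕ ≃ Σ β, PP e β, ∀ (β : Blk) (p q : PP e β), p.1.val < q.1.val →
    σ.symm ⟨β, p⟩ < σ.symm ⟨β, q⟩ := by
  have : Infinite (Σ β, PP e β) := Infinite.of_injective
    (fun β : Blk => (⟨β, ⟨0, (ker e β).pos⟩, inr (inr ⟨0, nn_pos β⟩)⟩ : Σ β, PP e β))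
    fun _ _ h => congrArg Sigma.fst h
  obtain ⟨σ, hσ⟩ := exists_enum (I := Σ β, PP e β) (fun n => Nat.pair (Encodable.encode n.1) (rank n.2)) (by
    rintro ⟨β, p⟩ ⟨β', q⟩ h
    obtain ⟨h1, h2⟩ := Nat.pair_eq_pair.1 h
    obtain rfl : β = β' := Encodable.encode_injective h1
    have h3 : p.1 = q.1 := by
      rcases lt_trichotomy p.1.val q.1.val with h4 | h4 | h4
      · exact absurd h2 (rank_lt h4).ne
      · exact Fin.ext h4
      · exact absurd h2 (rank_lt h4).ne'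
    simp only [rank, h3, add_right_inj] at h2
    rw [Prod.ext h3 ((Fintype.equivFin _).injective (Fin.ext h2))])
  exact ⟨σ, fun β p q h => hσ _ _ (Nat.pair_lt_pair_right _ (rank_lt h))⟩

theorem main_aux : ∃ (A : HH (PP e) →L[ℂ] HH (PP e)) (b : SchauderBasis ℂ (HH (PP e)))
    (mu : ℕ → ℝ), (∀ N, ‖b.proj N‖ ≤ 1 + 3 * e) ∧ Function.Injective mu ∧
      (∀ n, A (b n) = (mu n : ℂ) • b n) ∧
      (∀ M : Submodule ℂ (HH (PP e)), IsClosed (M : Set (HH (PP e))) → (∀ x ∈ M, A x ∈ M) →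
        M = (Submodule.span ℂ {x | x ∈ M ∧ ∃ c : ℂ, A x = c • x}).topologicalClosure) ∧
      (∀ n, ∀ M : Submodule ℂ (HH (PP e)), IsClosed (M : Set (HH (PP e))) → (∀ x ∈ M, A x ∈ M) →
        ∀ x ∈ M, (b.coord n).smulRight (b n) x ∈ M) ∧
      ∃ (n : ℕ) (s : Finset (HH (PP e) × HH (PP e))) (δ : ℝ), 0 < δ ∧ ∀ p : Polynomial ℂ, ∃ z ∈ s,
        δ ≤ ‖⟪((b.coord n).smulRight (b n) - Polynomial.aeval A p) z.1, z.2⟫_ℂ‖ := by
  obtain ⟨σ, hσ⟩ := exists_order e
  obtain ⟨x1, y1, x2, y2, a1, a2, a3, a4, h2, n0, h3⟩ := rank_two_all e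
  have he0 := he.out
  refine abs_main (T := TB e) (fun β h => TT_diag _ h) (fun n => pM_mem e _) (lam_inj e)
    (R := RR e) (fun β => Real.sqrt_nonneg _)
    (fun β => le_of_eq (Real.sq_sqrt (by positivity)).symm) (lam_osc e) σ (by positivity)
    (fun N β => ?_) rank_one_all x1 y1 x2 y2 a1 a2 a3 a4 h2 n0 h3
  by_cases h : ∃ p : PP e β, ¬ σ.symm ⟨β, p⟩ < N
  · obtain ⟨p₀, hp₀, hmin⟩ := Finset.exists_min_image
      (Finset.univ.filter fun p : PP e β => ¬ σ.symm ⟨β, p⟩ < N) (fun p => p.1.val)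
      (by obtain ⟨p, hp⟩ := h; exact ⟨p, by simpa using hp⟩)
    simp only [Finset.mem_filter, Finset.mem_univ, true_and] at hp₀ hmin
    refine norm_cut (ker e β) he0.le (ker e _).pos (ker e _).pos (nn_pos β) p₀.1.val
      (fun p => σ.symm ⟨β, p⟩ < N) (fun p hp => ?_) (fun p hp => ?_)
    · by_contra h1
      exact absurd (hmin p h1) (not_le.2 hp)
    · have := hσ β p₀ p hp
      omega
  · push Not at h
    exact norm_cut (ker e β) he0.le (ker e _).pos (ker e _).pos (nn_pos β) (NN e β)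
      (fun p => σ.symm ⟨β, p⟩ < N) (fun p _ => h p) (fun p hp => absurd p.1.isLt (not_lt.2 hp.le))

end Pool.Agent.ACE6
end
end
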